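import Mathlib

set_option autoImplicit false

/-!
Row-finite operators on sequence space and specialisation of algebraically independent entries.
-/

namespace Pool.Agent.H787Z.FT

open Filter

variable {F : Type} [Field F]

/-- Basis vector. -/
def e (n : ℕ) : ℕ → F := Pi.single n 1

lemma e_self (n : ℕ) : (e n : ℕ → F) n = 1 := by simp [e]

lemma e_ne {n m : ℕ} (h : m ≠ n) : (e n : ℕ → F) m = 0 := by simp [e, h]

/-- Row-finite operators. -/
def Loc (r : Module.End F (ℕ → F)) : Prop :=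
  ∀ h, ∃ J, ∀ u : ℕ → F, (∀ n < J, u n = 0) → r u h = 0

/-- The matrix entries lie in `S`. -/
def Over (S : Set F) (r : Module.End F (ℕ → F)) : Prop := ∀ h n, r (e n) h ∈ S

lemma Loc.apply_eq {r : Module.End F (ℕ → F)} (hr : Loc r) (h : ℕ) :
    ∃ J, ∀ u : ℕ → F, r u h = ∑ n ∈ Finset.range J, u n * r (e n) h := by
  obtain ⟨J, hJ⟩ := hr h
  refine ⟨J, fun u => ?_⟩
  have h1 := hJ (u - ∑ n ∈ Finset.range J, u n • e n) (by
    intro n hn
    simp only [Pi.sub_apply, Finset.sum_apply, Pi.smul_apply, smul_eq_mul]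
    rw [Finset.sum_eq_single n]
    · simp [e_self]
    · intro m _ hm
      rw [e_ne (Ne.symm hm), mul_zero]
    · intro hn'
      exact absurd (Finset.mem_range.2 hn) hn')
  simp only [map_sub, map_sum, map_smul, Pi.sub_apply, Finset.sum_apply, Pi.smul_apply,
    smul_eq_mul] at h1
  exact sub_eq_zero.1 h1

lemma Loc.one : Loc (1 : Module.End F (ℕ → F)) := fun h =>
  ⟨h + 1, fun u hu => hu h (Nat.lt_succ_self h)⟩

lemma Loc.zero : Loc (0 : Module.End F (ℕ → F)) := fun _ => ⟨0, fun _ _ => rfl⟩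

lemma Loc.bound {r : Module.End F (ℕ → F)} (hr : Loc r) (I : ℕ) :
    ∃ J, ∀ u : ℕ → F, (∀ n < J, u n = 0) → ∀ h < I, r u h = 0 := by
  choose J hJ using hr
  refine ⟨(Finset.range I).sup J, fun u hu h hh => hJ h u fun n hn => hu n ?_⟩
  exact lt_of_lt_of_le hn (Finset.le_sup (f := J) (Finset.mem_range.2 hh))

lemma Loc.mul {r s : Module.End F (ℕ → F)} (hr : Loc r) (hs : Loc s) : Loc (r * s) := by
  intro h
  obtain ⟨J, hJ⟩ := hr h
  obtain ⟨J', hJ'⟩ := hs.bound J
  exact ⟨J', fun u hu => hJ _ (hJ' u hu)⟩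

lemma Loc.add {r s : Module.End F (ℕ → F)} (hr : Loc r) (hs : Loc s) : Loc (r + s) := by
  intro h
  obtain ⟨J, hJ⟩ := hr h
  obtain ⟨J', hJ'⟩ := hs h
  refine ⟨max J J', fun u hu => ?_⟩
  simp only [LinearMap.add_apply, Pi.add_apply]
  rw [hJ u fun n hn => hu n (lt_of_lt_of_le hn (le_max_left _ _)),
    hJ' u fun n hn => hu n (lt_of_lt_of_le hn (le_max_right _ _)), add_zero]

lemma Loc.smul {r : Module.End F (ℕ → F)} (hr : Loc r) (c : F) : Loc (c • r) := by
  intro h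
  obtain ⟨J, hJ⟩ := hr h
  exact ⟨J, fun u hu => by simp [hJ u hu]⟩

lemma Loc.sub {r s : Module.End F (ℕ → F)} (hr : Loc r) (hs : Loc s) : Loc (r - s) := by
  have := hr.add (hs.smul (-1 : F))
  have h2 : r - s = r + (-1 : F) • s := by
    ext u h
    simp [sub_eq_add_neg]
  rwa [h2]

lemma Loc.sum {α : Type*} (s : Finset α) (r : α → Module.End F (ℕ → F))
    (hr : ∀ x ∈ s, Loc (r x)) : Loc (∑ x ∈ s, r x) :=
  Finset.sum_induction r Loc (fun _ _ => Loc.add) Loc.zero hr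

lemma Loc.eventually {r : Module.End F (ℕ → F)} (hr : Loc r) (I : ℕ) :
    ∀ᶠ i in atTop, ∀ h < I, r (e i) h = 0 := by
  obtain ⟨J, hJ⟩ := hr.bound I
  filter_upwards [eventually_ge_atTop J] with i hi
  exact hJ _ fun n hn => e_ne (by omega)

lemma Loc.maps {r : Module.End F (ℕ → F)} (hr : Loc r) {S : Subring F} (ho : Over (S : Set F) r)
    {u : ℕ → F} (hu : ∀ n, u n ∈ S) (h : ℕ) : r u h ∈ S := by
  obtain ⟨J, hJ⟩ := hr.apply_eq h
  rw [hJ]
  exact S.sum_mem fun n _ => S.mul_mem (hu n) (ho h n)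

lemma e_mem (S : Subring F) (n m : ℕ) : (e n : ℕ → F) m ∈ S := by
  by_cases h : m = n
  · subst h; rw [e_self]; exact S.one_mem
  · rw [e_ne h]; exact S.zero_mem

lemma Loc.comm {r : Module.End F (ℕ → F)} (hr : Loc r) {S : Set F} (ho : Over S r)
    (σ : F →+ F) (hσ : ∀ k ∈ S, ∀ x, σ (x * k) = σ x * k) (u : ℕ → F) (h : ℕ) :
    σ (r u h) = r (fun n => σ (u n)) h := by
  obtain ⟨J, hJ⟩ := hr.apply_eq h
  rw [hJ u, hJ (fun n => σ (u n)), map_sum]
  exact Finset.sum_congr rfl fun n _ => hσ _ (ho h n) _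

/-- A row-finite operator killing all late basis vectors only looks at early coordinates. -/
lemma Loc.apply_of_kill {r : Module.End F (ℕ → F)} (hr : Loc r) {I : ℕ}
    (hI : ∀ i, I ≤ i → r (e i) = 0) (u : ℕ → F) :
    r u = ∑ n ∈ Finset.range I, u n • r (e n) := by
  funext h
  obtain ⟨J, hJ⟩ := hr.apply_eq h
  rw [hJ]
  simp only [Finset.sum_apply, Pi.smul_apply, smul_eq_mul]
  have h1 : ∑ n ∈ Finset.range J, u n * r (e n) h
      = ∑ n ∈ Finset.range (max I J), u n * r (e n) h := by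
    apply Finset.sum_subset (Finset.range_subset_range.2 (le_max_right _ _))
    intro n _ hn
    have := hJ (e n)
    rw [this, Finset.sum_eq_zero, mul_zero]
    intro m hm
    rw [e_ne, zero_mul]
    rintro rfl
    exact hn hm
  have h2 : ∑ n ∈ Finset.range I, u n * r (e n) h
      = ∑ n ∈ Finset.range (max I J), u n * r (e n) h := by
    apply Finset.sum_subset (Finset.range_subset_range.2 (le_max_left _ _))
    intro n _ hn
    rw [hI n (by simpa using hn)]
    simp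
  rw [h1, h2]

/-- Projection along `a`. -/
noncomputable def piMap (a : ℕ → F) (n0 : ℕ) : Module.End F (ℕ → F) :=
  LinearMap.id - (LinearMap.proj n0 : (ℕ → F) →ₗ[F] F).smulRight ((a n0)⁻¹ • a)

/-- Almost lower triangular matrix with entries `g`. -/
noncomputable def Psi (g : ℕ × ℕ → F) : Module.End F (ℕ → F) :=
  LinearMap.pi fun i => ∑ j ∈ Finset.range (i + 2), g (i, j) • (LinearMap.proj j : (ℕ → F) →ₗ[F] F)

/-- The generic operator sending `a` to `b`. -/
noncomputable def phi (g : ℕ × ℕ → F) (a b : ℕ → F) (n0 : ℕ) : Module.End F (ℕ → F) :=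
  Psi g * piMap a n0 + (LinearMap.proj n0 : (ℕ → F) →ₗ[F] F).smulRight ((a n0)⁻¹ • b)

lemma piMap_apply (a : ℕ → F) (n0 : ℕ) (v : ℕ → F) (j : ℕ) :
    piMap a n0 v j = v j - v n0 * ((a n0)⁻¹ * a j) := by
  simp [piMap]

lemma Psi_apply (g : ℕ × ℕ → F) (v : ℕ → F) (i : ℕ) :
    Psi g v i = ∑ j ∈ Finset.range (i + 2), g (i, j) * v j := by
  simp [Psi]

lemma phi_apply (g : ℕ × ℕ → F) (a b : ℕ → F) (n0 : ℕ) (v : ℕ → F) (i : ℕ) :
    phi g a b n0 v i = ∑ j ∈ Finset.range (i + 2), g (i, j) * piMap a n0 v j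
      + v n0 * ((a n0)⁻¹ * b i) := by
  simp [phi, Psi_apply]

lemma phi_loc (g : ℕ × ℕ → F) (a b : ℕ → F) (n0 : ℕ) : Loc (phi g a b n0) := by
  intro i
  refine ⟨max (i + 2) (n0 + 1), fun u hu => ?_⟩
  have h0 : u n0 = 0 := hu n0 (lt_of_lt_of_le (Nat.lt_succ_self _) (le_max_right _ _))
  rw [phi_apply, h0, zero_mul, add_zero]
  refine Finset.sum_eq_zero fun j hj => ?_
  rw [piMap_apply, h0, hu j (lt_of_lt_of_le (Finset.mem_range.1 hj) (le_max_left _ _))]
  simp

lemma phi_a (g : ℕ × ℕ → F) {a : ℕ → F} (b : ℕ → F) {n0 : ℕ} (ha : a n0 ≠ 0) :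
    phi g a b n0 a = b := by
  funext i
  rw [phi_apply, Finset.sum_eq_zero]
  · field_simp
    simp
  · intro j _
    rw [piMap_apply]
    field_simp
    simp

lemma piMap_e (a : ℕ → F) {n0 m : ℕ} (h : m ≠ n0) : piMap a n0 (e m) = e m := by
  funext j
  rw [piMap_apply, e_ne (Ne.symm h)]
  simp

lemma phi_e (g : ℕ × ℕ → F) (a b : ℕ → F) {n0 m : ℕ} (h : m ≠ n0) (hm : m < 2) (i : ℕ) :
    phi g a b n0 (e m) i = g (i, m) := by
  rw [phi_apply, piMap_e a h, e_ne (Ne.symm h), zero_mul, add_zero, Finset.sum_eq_single m]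
  · rw [e_self, mul_one]
  · intro j _ hj
    rw [e_ne hj, mul_zero]
  · intro hh
    exact absurd (Finset.mem_range.2 (by omega)) hh

lemma eq_of_piMap {a v : ℕ → F} {n0 : ℕ} (h : piMap a n0 v = 0) :
    v = (v n0 * (a n0)⁻¹) • a := by
  funext j
  have := congrFun h j
  rw [piMap_apply] at this
  simp only [Pi.zero_apply] at this
  simp only [Pi.smul_apply, smul_eq_mul]
  rw [mul_assoc]
  exact sub_eq_zero.1 this

end Pool.Agent.H787Z.FT
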