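import Pool.Agent.H787Z.FT.Step

set_option autoImplicit false

/-!
The homogeneous fully transitive group that is not transitive.
-/

namespace Pool.Agent.H787Z.FT

open Filter Topology

lemma norm_piMap_le {a v : ℕ → Q2} {n0 : ℕ} (h0 : ‖a n0‖ = 1) (ha : ∀ n, ‖a n‖ ≤ 1) {C : ℝ}
    (hv : ∀ n, ‖v n‖ ≤ C) (j : ℕ) : ‖piMap a n0 v j‖ ≤ C := by
  rw [piMap_apply, sub_eq_add_neg]
  refine le_trans (IsUltrametricDist.norm_add_le_max _ _) (max_le (hv j) ?_)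
  rw [norm_neg, norm_mul, norm_mul, norm_inv, h0, inv_one, one_mul]
  exact le_trans (mul_le_of_le_one_right (norm_nonneg _) (ha j)) (hv n0)

lemma norm_sum_psi_le {ψ : ℕ × ℕ → Q2} (hψ : ∀ p, ‖ψ p‖ ≤ (1 / 2) ^ p.1) {u : ℕ → Q2} {C : ℝ}
    (hu : ∀ n, ‖u n‖ ≤ C) (i : ℕ) :
    ‖∑ j ∈ Finset.range (i + 2), ψ (i, j) * u j‖ ≤ (1 / 2) ^ i * C := by
  have hC : 0 ≤ C := le_trans (norm_nonneg _) (hu 0)
  refine IsUltrametricDist.norm_sum_le_of_forall_le_of_nonneg (by positivity) fun j _ => ?_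
  rw [norm_mul]
  exact mul_le_mul (hψ (i, j)) (hu j) (norm_nonneg _) (by positivity)

lemma norm_phi_le {ψ : ℕ × ℕ → Q2} (hψ : ∀ p, ‖ψ p‖ ≤ (1 / 2) ^ p.1) {a b v : ℕ → Q2} {n0 : ℕ}
    (h0 : ‖a n0‖ = 1) (ha : ∀ n, ‖a n‖ ≤ 1) (hb : ∀ n, ‖b n‖ ≤ 1) {C : ℝ}
    (hv : ∀ n, ‖v n‖ ≤ C) (i : ℕ) : ‖phi ψ a b n0 v i‖ ≤ C := by
  have hC : 0 ≤ C := le_trans (norm_nonneg _) (hv 0)
  rw [phi_apply]
  refine le_trans (IsUltrametricDist.norm_add_le_max _ _) (max_le ?_ ?_)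
  · refine le_trans (norm_sum_psi_le hψ (norm_piMap_le h0 ha hv) i) ?_
    exact mul_le_of_le_one_left hC (pow_le_one₀ (by norm_num) (by norm_num))
  · rw [norm_mul, norm_mul, norm_inv, h0, inv_one, one_mul]
    exact le_trans (mul_le_of_le_one_right (norm_nonneg _) (hb i)) (hv n0)

lemma tendsto_phi {ψ : ℕ × ℕ → Q2} (hψ : ∀ p, ‖ψ p‖ ≤ (1 / 2) ^ p.1) {a b v : ℕ → Q2} {n0 : ℕ}
    (h0 : ‖a n0‖ = 1) (ha : ∀ n, ‖a n‖ ≤ 1) (hb : Tendsto b atTop (𝓝 0))
    (hv : Tendsto v atTop (𝓝 0)) : Tendsto (phi ψ a b n0 v) atTop (𝓝 0) := by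
  obtain ⟨C, hC⟩ := hv.norm.bddAbove_range
  have hC' : ∀ n, ‖v n‖ ≤ C := fun n => hC ⟨n, rfl⟩
  have h1 : Tendsto (fun i => ∑ j ∈ Finset.range (i + 2), ψ (i, j) * piMap a n0 v j) atTop
      (𝓝 0) := by
    refine squeeze_zero_norm (fun i => norm_sum_psi_le hψ (norm_piMap_le h0 ha hC') i) ?_
    simpa using (tendsto_pow_atTop_nhds_zero_of_lt_one (r := (1 / 2 : ℝ)) (by norm_num)
      (by norm_num)).mul_const C
  have h2 := h1.add ((hb.const_mul (a n0)⁻¹).const_mul (v n0))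
  simp only [mul_zero, add_zero] at h2
  exact h2.congr fun i => (phi_apply ψ a b n0 v i).symm

/-- The unit ball of a rational subspace. -/
def ball (V : Submodule ℚ (ℕ → Q2)) : AddSubgroup (ℕ → Q2) where
  carrier := {v | v ∈ V ∧ ∀ n, ‖v n‖ ≤ 1}
  add_mem' := fun ha hb => ⟨add_mem ha.1 hb.1, fun n =>
    le_trans (IsUltrametricDist.norm_add_le_max _ _) (max_le (ha.2 n) (hb.2 n))⟩
  zero_mem' := ⟨zero_mem V, fun n => by simp⟩
  neg_mem' := fun ha => ⟨neg_mem ha.1, fun n => by simpa using ha.2 n⟩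

/-- Null sequences. -/
def c0 : Submodule ℚ (ℕ → Q2) where
  carrier := {v | Tendsto v atTop (𝓝 0)}
  add_mem' := fun ha hb => by
    have := Tendsto.add ha hb
    rw [add_zero] at this
    exact this
  zero_mem' := tendsto_const_nhds
  smul_mem' := fun q v hv => by
    have := Tendsto.const_smul hv q
    rw [smul_zero] at this
    exact this

variable {V : Submodule ℚ (ℕ → Q2)}

lemma dvd_of_norm {q : ℕ} (hq : q ≠ 0) (x : ball V) (hx : ∀ n, ‖x.1 n‖ ≤ ‖(q : Q2)‖) :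
    ∃ y : ball V, q • y = x := by
  have hq' : (q : Q2) ≠ 0 := Nat.cast_ne_zero.2 hq
  refine ⟨⟨(q : ℚ)⁻¹ • x.1, V.smul_mem _ x.2.1, fun n => ?_⟩, ?_⟩
  · rw [Pi.smul_apply, Rat.smul_def, norm_mul]
    push_cast
    rw [norm_inv, inv_mul_le_iff₀ (norm_pos_iff.2 hq'), mul_one]
    exact hx n
  · apply Subtype.ext
    funext n
    simp only [AddSubgroupClass.coe_nsmul, Pi.smul_apply, nsmul_eq_mul, Rat.smul_def]
    push_cast
    field_simp

lemma norm_of_dvd {q : ℕ} {x y : ball V} (h : q • y = x) (n : ℕ) : ‖x.1 n‖ ≤ ‖(q : Q2)‖ := by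
  rw [← h]
  simp only [AddSubgroupClass.coe_nsmul, Pi.smul_apply, nsmul_eq_mul, norm_mul]
  exact mul_le_of_le_one_right (norm_nonneg _) (y.2.2 n)

lemma norm_two_pow' (k : ℕ) : ‖((2 ^ k : ℕ) : Q2)‖ = (1 / 2) ^ k := by
  push_cast
  exact norm_two_pow k

lemma dvd_odd {p : ℕ} (hp : p.Prime) (h2 : p ≠ 2) (k : ℕ) (x : ball V) :
    ∃ y : ball V, p ^ k • y = x := by
  refine dvd_of_norm (pow_ne_zero _ hp.ne_zero) x fun n => ?_
  have : ‖((p ^ k : ℕ) : Q2)‖ = 1 := by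
    rw [Padic.norm_natCast_eq_one_iff]
    exact ((Nat.coprime_primes Nat.prime_two hp).2 (Ne.symm h2)).pow_right k
  rw [this]
  exact x.2.2 n

lemma height_bound {a : ball V} (ha : a ≠ 0) :
    ∃ k0 : ℕ, ∀ k : ℕ, (∃ y : ball V, 2 ^ k • y = a) → k < k0 := by
  obtain ⟨n, hn⟩ : ∃ n, a.1 n ≠ 0 := by
    by_contra h
    push Not at h
    exact ha (Subtype.ext (funext h))
  obtain ⟨k0, hk0⟩ := exists_pow_lt_of_lt_one (norm_pos_iff.2 hn) (by norm_num : (1 / 2 : ℝ) < 1)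
  refine ⟨k0, fun k ⟨y, hy⟩ => ?_⟩
  have h1 := norm_of_dvd hy n
  rw [norm_two_pow'] at h1
  exact (pow_lt_pow_iff_right_of_lt_one₀ (by norm_num) (by norm_num)).1 (lt_of_lt_of_le hk0 h1)

lemma exists_pure {a : ball V} (ha : a ≠ 0) :
    ∃ (k : ℕ) (a' : ball V), 2 ^ k • a' = a ∧ ∃ n, ‖a'.1 n‖ = 1 := by
  classical
  obtain ⟨k0, hk0⟩ := height_bound ha
  have hex : ∃ k : ℕ, ¬ ∃ y : ball V, 2 ^ (k + 1) • y = a :=
    ⟨k0, fun h => by have := hk0 _ h; omega⟩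
  have h1 : ∃ y : ball V, 2 ^ Nat.find hex • y = a := by
    rcases Nat.eq_zero_or_pos (Nat.find hex) with h | h
    · exact ⟨a, by rw [h]; simp⟩
    · have := Nat.find_min hex (m := Nat.find hex - 1) (by omega)
      rw [not_not, Nat.sub_add_cancel h] at this
      exact this
  obtain ⟨a', ha'⟩ := h1
  refine ⟨_, a', ha', ?_⟩
  by_contra hcon
  push Not at hcon
  apply Nat.find_spec hex
  obtain ⟨y, hy⟩ := dvd_of_norm (q := 2) two_ne_zero a' fun n => by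
    have h2 := (Padic.norm_lt_pow_iff_norm_le_pow_sub_one (p := 2) (a'.1 n) 0).1
      (by simpa using lt_of_le_of_ne (a'.2.2 n) (hcon n))
    have h3 : ‖((2 : ℕ) : Q2)‖ = 1 / 2 := by simpa using norm_two
    rw [h3]
    simpa using h2
  exact ⟨y, by rw [pow_succ, mul_smul, hy, ha']⟩

lemma hasSum_hom (he : ∀ n, e n ∈ V) (hV : V ≤ c0) (f : ball V →+ ball V) (x : ball V) (h : ℕ) :
    HasSum (fun n => (f ⟨e n, he n, norm_e_le n⟩).1 h * x.1 n) ((f x).1 h) := by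
  classical
  let E : ℕ → ball V := fun n => ⟨e n, he n, norm_e_le n⟩
  rw [HasSum, Metric.tendsto_nhds]
  intro ε hε
  obtain ⟨k, hk⟩ := exists_pow_lt_of_lt_one hε (by norm_num : (1 / 2 : ℝ) < 1)
  have hpos : (0 : ℝ) < (1 / 2) ^ k := by positivity
  have hx0 : Tendsto x.1 atTop (𝓝 0) := hV x.2.1
  obtain ⟨J, hJ⟩ := eventually_atTop.1 (hx0.norm.eventually
    (ge_mem_nhds (a := (1 / 2 : ℝ) ^ k) (by simpa using hpos)))
  have happ : ∀ n, ∃ q : ℤ, ‖x.1 n - q‖ ≤ (1 / 2) ^ k := fun n => by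
    obtain ⟨q, hq⟩ := (Metric.denseRange_iff.1 (PadicInt.denseRange_intCast (p := 2)))
      ⟨x.1 n, x.2.2 n⟩ _ hpos
    refine ⟨q, ?_⟩
    rw [dist_eq_norm, PadicInt.norm_def] at hq
    simpa using hq.le
  choose q hq using happ
  refine eventually_atTop.2 ⟨Finset.range J, fun s hs => ?_⟩
  obtain ⟨y, hy⟩ := dvd_of_norm (q := 2 ^ k) (pow_ne_zero _ two_ne_zero)
    (x - ∑ n ∈ s, q n • E n) (fun m => by
      rw [norm_two_pow']
      have h1 : (x - ∑ n ∈ s, q n • E n).1 m = x.1 m - if m ∈ s then (q m : Q2) else 0 := by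
        simp only [AddSubgroupClass.coe_sub, AddSubgroup.val_finsetSum, Pi.sub_apply,
          Finset.sum_apply, AddSubgroupClass.coe_zsmul, Pi.smul_apply, zsmul_eq_mul, E,
          Pi.mul_apply, Pi.intCast_apply]
        congr 1
        split_ifs with hm
        · rw [Finset.sum_eq_single m]
          · rw [e_self, mul_one]
          · intro b _ hb
            rw [e_ne (Ne.symm hb), mul_zero]
          · intro hh
            exact absurd hm hh
        · refine Finset.sum_eq_zero fun b hb => ?_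
          rw [e_ne, mul_zero]
          rintro rfl
          exact hm hb
      rw [h1]
      split_ifs with hm
      · exact hq m
      · rw [sub_zero]
        refine hJ m ?_
        by_contra hh
        exact hm (hs (Finset.mem_range.2 (not_le.1 hh))))
  have h2 := norm_of_dvd (x := f (x - ∑ n ∈ s, q n • E n)) (y := f y) (q := 2 ^ k)
    (by rw [← map_nsmul, hy]) h
  rw [norm_two_pow', map_sub, map_sum] at h2
  simp only [map_zsmul, AddSubgroupClass.coe_sub, AddSubgroup.val_finsetSum, Pi.sub_apply,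
    Finset.sum_apply, AddSubgroupClass.coe_zsmul, Pi.smul_apply, zsmul_eq_mul,
    Pi.mul_apply, Pi.intCast_apply] at h2
  have h3 : ‖∑ n ∈ s, (f (E n)).1 h * (x.1 n - q n)‖ ≤ (1 / 2) ^ k := by
    refine IsUltrametricDist.norm_sum_le_of_forall_le_of_nonneg hpos.le fun n _ => ?_
    rw [norm_mul]
    exact le_trans (mul_le_of_le_one_left (norm_nonneg _) ((f (E n)).2.2 h)) (hq n)
  rw [dist_eq_norm]
  have h4 : ∑ n ∈ s, (f (E n)).1 h * x.1 n - (f x).1 h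
      = ∑ n ∈ s, (f (E n)).1 h * (x.1 n - q n)
        + -((f x).1 h - ∑ n ∈ s, (q n : Q2) * (f (E n)).1 h) := by
    simp only [mul_sub, Finset.sum_sub_distrib, mul_comm (q _ : Q2)]
    ring
  refine lt_of_le_of_lt ?_ hk
  show ‖∑ n ∈ s, (f (E n)).1 h * x.1 n - (f x).1 h‖ ≤ _
  rw [h4]
  refine le_trans (IsUltrametricDist.norm_add_le_max _ _) (max_le h3 ?_)
  rwa [norm_neg]

lemma exists_loc (M : ℕ → ℕ → Q2) (hM : ∀ h, ∃ J, ∀ n, J ≤ n → M h n = 0) :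
    ∃ T : Module.End Q2 (ℕ → Q2), Loc T ∧ ∀ u h, T u h = ∑' n, M h n * u n := by
  choose J hJ using hM
  let T : Module.End Q2 (ℕ → Q2) := LinearMap.pi fun h =>
    ∑ n ∈ Finset.range (J h), M h n • (LinearMap.proj n : (ℕ → Q2) →ₗ[Q2] Q2)
  have hT : ∀ u h, T u h = ∑ n ∈ Finset.range (J h), M h n * u n := fun u h => by simp [T]
  refine ⟨T, fun h => ⟨J h, fun u hu => ?_⟩, fun u h => ?_⟩
  · rw [hT]
    exact Finset.sum_eq_zero fun n hn => by rw [hu n (Finset.mem_range.1 hn), mul_zero]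
  · rw [hT, tsum_eq_sum]
    intro n hn
    rw [hJ h n (by simpa using hn), zero_mul]

theorem exists_space : ∃ V : Submodule ℚ (ℕ → Q2), ∃ he : ∀ n, e n ∈ V,
    (∀ a b : ball V, (∃ n, ‖a.1 n‖ = 1) → ∃ f : ball V →+ ball V, f a = b) ∧
    ∀ f : ball V ≃+ ball V, f ⟨e 0, he 0, norm_e_le 0⟩ ≠ ⟨e 1, he 1, norm_e_le 1⟩ := by
  obtain ⟨τ, Φ, hτ, hΦ⟩ := exists_system
  choose K ψ a b n0 m hind hval heq hnorm hprev hMK hmn hm2 hy hkill htask using hΦ
  set φ : Idx → Module.End Q2 (ℕ → Q2) := fun η => (Φ η).1 with hφ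
  have hVq : ∀ T : Set Idx, Vq Prod.fst (Ov (Φ '' T)) = Vq φ (Ov T) := fun T => Vq_image _ Φ T
  have hloc : ∀ η, Loc (φ η) := fun η => by
    show Loc (Φ η).1
    rw [heq η]
    exact phi_loc _ _ _ _
  have hst : ∀ ξ, Stage φ ξ (K ξ) (ψ ξ) (a ξ) (b ξ) (n0 ξ) := fun ξ =>
    { indep := hind ξ
      ha := hVq _ ▸ (hval ξ).1
      hb := hVq _ ▸ (hval ξ).2.1
      eq := heq ξ
      an := by
        rw [← norm_ne_zero_iff, (hval ξ).2.2.1]
        exact one_ne_zero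
      loc := hloc
      ovr := fun η hη => (hprev ξ (Φ η) ⟨η, hη, rfl⟩).1 }
  have H : ∀ ξ, ∃ K ψ a b n0, Stage φ ξ K ψ a b n0 := fun ξ => ⟨_, _, _, _, _, hst ξ⟩
  set V := Vq φ (Ov Set.univ) with hV
  have he : ∀ n, e n ∈ V := e_mem_Vq φ _
  have hc0 : V ≤ c0 := by
    refine Vq_induction φ fun w hw n => ?_
    clear hw
    induction w with
    | nil => exact tendsto_e n
    | cons η w ih =>
      rw [word_cons, Module.End.mul_apply, (hst η).eq]
      exact tendsto_phi (hnorm η) (hval η).2.2.1 (hval η).2.2.2.1 (hval η).2.2.2.2.2 ih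
  have hball : ∀ η, ∀ v ∈ ball V, φ η v ∈ ball V := fun η v hv =>
    ⟨phi_mem_Vq φ (Set.mem_univ η) hv.1, fun i => by
      rw [(hst η).eq]
      exact norm_phi_le (hnorm η) (hval η).2.2.1 (hval η).2.2.2.1 (hval η).2.2.2.2.1 hv.2 i⟩
  have hx : ∀ ξ, φ ξ (e (m ξ)) = fun i => ψ ξ (i, m ξ) := fun ξ => by
    funext i
    rw [(hst ξ).eq, phi_e _ _ _ (hmn ξ) (hm2 ξ)]
  obtain ⟨η0⟩ : Nonempty Idx := by
    rw [← Cardinal.mk_ne_zero_iff, Cardinal.mk_ord_toType]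
    exact Cardinal.continuum_ne_zero
  have hlow : ∀ v ∈ V, ∃ η, v ∈ Vq φ (Ov (Set.Iic η)) := fun v hv => by
    rcases Sp_cases _ _ hv with h | ⟨η, _, h⟩
    · exact ⟨η0, Sp_mono_ov _ _ (Set.empty_subset _) h⟩
    · exact ⟨η, h⟩
  have hend : ∀ f : ball V →+ ball V, ∃ T : Module.End Q2 (ℕ → Q2), Loc T ∧
      (∀ x : ball V, T x.1 = (f x).1) ∧
      ∃ P : List Idx →₀ Q2, ∀ᶠ i in atTop, T (e i) = ev φ P (e i) := by
    intro f
    let M : ℕ → ℕ → Q2 := fun h n => (f ⟨e n, he n, norm_e_le n⟩).1 h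
    obtain ⟨ξ, -, hξ⟩ := hτ (0, 0, M) η0
    have hM : (τ ξ).2.2 = M := by rw [hξ]
    let x : ball V := ⟨φ ξ (e (m ξ)), hball ξ _ ⟨he _, norm_e_le _⟩⟩
    have hyx : (Φ ξ).2 = (f x).1 := by
      rw [hy ξ, hM]
      funext h
      have := (hasSum_hom he hc0 f x h).tsum_eq
      simpa only [x, hx ξ] using this
    have hyV : (f x).1 ∈ Vq φ (Ov (Set.Iic ξ)) :=
      persist_all (fun η => ⟨_, _, _, _, _, hst η, fun hη =>
        hyx ▸ (hprev η (Φ ξ) ⟨ξ, hη, rfl⟩).2⟩) (f x).2.1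
    rcases hkill ξ (by rw [hM]; exact fun h n => (f _).2.2 h) with h | ⟨h, hh⟩
    · rw [hM] at h
      obtain ⟨T, hT, hTu⟩ := exists_loc M h
      have hTf : ∀ x : ball V, T x.1 = (f x).1 := fun x => by
        funext h
        rw [hTu]
        exact (hasSum_hom he hc0 f x h).tsum_eq
      refine ⟨T, hT, hTf, (hst ξ).kill (LI_all H _) hT (fun h n => ?_) (hmn ξ) ?_⟩
      · rw [hTf ⟨e n, he n, norm_e_le n⟩]
        have := hMK ξ h n
        rwa [hM] at this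
      · rw [hTf x]
        exact hyV
    · exact absurd (hyx ▸ (hst ξ).VqA hyV h) hh
  refine ⟨V, he, ?_, ?_⟩
  · rintro a' b' ⟨n, hn⟩
    obtain ⟨η1, h1⟩ := hlow _ a'.2.1
    obtain ⟨η2, h2⟩ := hlow _ b'.2.1
    obtain ⟨ξ, hξ, ht⟩ := hτ (a'.1, b'.1, 0) (max η1 η2)
    obtain ⟨ea, eb⟩ := htask ξ ⟨n, by
      rw [ht]
      refine ⟨?_, ?_, hn, a'.2.2, b'.2.2, hc0 b'.2.1⟩
      · rw [hVq]
        exact Sp_mono_ov _ _ (fun ζ hζ => lt_of_le_of_lt (le_trans hζ (le_max_left _ _)) hξ) h1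
      · rw [hVq]
        exact Sp_mono_ov _ _ (fun ζ hζ => lt_of_le_of_lt (le_trans hζ (le_max_right _ _)) hξ) h2⟩
    rw [ht] at ea eb
    refine ⟨((φ ξ).toAddMonoidHom.domRestrict (ball V)).codRestrict (ball V)
      (fun v => hball ξ v.1 v.2), Subtype.ext ?_⟩
    show φ ξ a'.1 = b'.1
    simp only at ea eb
    rw [← ea, ← eb, (hst ξ).eq, phi_a _ _ (hst ξ).an]
  · intro f hf
    obtain ⟨T, hT, hTf, P, hP⟩ := hend f.toAddMonoidHom
    obtain ⟨T', -, hTf', P', hP'⟩ := hend f.symm.toAddMonoidHom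
    let x : ball V := ⟨φ η0 (e (m η0)), hball η0 _ ⟨he _, norm_e_le _⟩⟩
    obtain ⟨d, hd⟩ := rigid hloc (LI_all H _) (free_all H _) hT hP hP' (fun i => by
        rw [hTf' ⟨e i, he i, norm_e_le i⟩, hTf]
        simp) (fun n => by
        rw [hTf ⟨e n, he n, norm_e_le n⟩]
        exact (f.toAddMonoidHom _).2.1) (hind η0) (m η0) (hx η0 ▸ x.2.1) (by
        rw [← hx η0, hTf x]
        exact (f.toAddMonoidHom _).2.1)
    rw [hTf ⟨e 0, he 0, norm_e_le 0⟩] at hd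
    have h1 : (f.toAddMonoidHom ⟨e 0, he 0, norm_e_le 0⟩).1 = e 1 := congrArg Subtype.val hf
    rw [h1] at hd
    have h2 := congrFun hd 1
    rw [e_self, Pi.smul_apply, e_ne one_ne_zero] at h2
    simp at h2

theorem main :
    ∃ (G : Type) (_ : AddCommGroup G),
      (∀ (n : ℕ) (x : G), n ≠ 0 → n • x = 0 → x = 0) ∧
      (∀ a b : G, a ≠ 0 → b ≠ 0 → ∃ n : ℕ, n ≠ 0 ∧
        ∀ p : ℕ, p.Prime → ∀ k : ℕ,
          (∃ y : G, p ^ k • y = a) → ∃ y : G, p ^ k • y = n • b) ∧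
      (∀ a b : G, a ≠ 0 →
        (∀ p : ℕ, p.Prime → ∀ k : ℕ,
          (∃ y : G, p ^ k • y = a) → ∃ y : G, p ^ k • y = b) →
        ∃ f : G →+ G, f a = b) ∧
      ¬ (∀ a b : G, a ≠ 0 → b ≠ 0 →
        (∀ p : ℕ, p.Prime → ∀ k : ℕ,
          ((∃ y : G, p ^ k • y = a) ↔ ∃ y : G, p ^ k • y = b)) →
        ∃ f : G ≃+ G, f a = b) := by
  obtain ⟨V, he, h1, h2⟩ := exists_space
  refine ⟨ball V, inferInstance, ?_, ?_, ?_, ?_⟩
  · intro n x hn hx
    apply Subtype.ext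
    funext i
    have := congrFun (congrArg Subtype.val hx) i
    simp only [AddSubgroupClass.coe_nsmul, Pi.smul_apply, nsmul_eq_mul, ZeroMemClass.coe_zero,
      Pi.zero_apply] at this
    exact (mul_eq_zero.1 this).resolve_left (Nat.cast_ne_zero.2 hn)
  · intro a b ha _
    obtain ⟨k0, hk0⟩ := height_bound ha
    refine ⟨2 ^ k0, pow_ne_zero _ two_ne_zero, fun p hp k hk => ?_⟩
    by_cases h : p = 2
    · subst h
      have := hk0 k hk
      refine ⟨2 ^ (k0 - k) • b, ?_⟩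
      rw [← mul_smul, ← pow_add, Nat.add_sub_cancel' this.le]
    · exact dvd_odd hp h k _
  · intro a b ha hab
    obtain ⟨k, a', rfl, hn⟩ := exists_pure ha
    obtain ⟨b', rfl⟩ := hab 2 Nat.prime_two k ⟨a', rfl⟩
    obtain ⟨f, hf⟩ := h1 a' b' hn
    exact ⟨f, by rw [map_nsmul, hf]⟩
  · intro hcon
    have hne : ∀ n, (⟨e n, he n, norm_e_le n⟩ : ball V) ≠ 0 := fun n h => by
      have := congrFun (congrArg Subtype.val h) n
      simp [e_self] at this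
    have hdiv : ∀ n k, (∃ y : ball V, 2 ^ k • y = ⟨e n, he n, norm_e_le n⟩) ↔ k = 0 := by
      intro n k
      constructor
      · rintro ⟨y, hy⟩
        have h3 := norm_of_dvd hy n
        rw [norm_two_pow'] at h3
        simp only [e_self, norm_one] at h3
        by_contra hk
        exact absurd h3 (not_le.2 (pow_lt_one₀ (by norm_num) (by norm_num) hk))
      · rintro rfl
        exact ⟨⟨e n, he n, norm_e_le n⟩, by simp⟩
    obtain ⟨f, hf⟩ := hcon _ _ (hne 0) (hne 1) fun p hp k => by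
      by_cases h : p = 2
      · subst h
        rw [hdiv, hdiv]
      · exact iff_of_true (dvd_odd hp h k _) (dvd_odd hp h k _)
    exact h2 f hf

end Pool.Agent.H787Z.FT
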