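import Pool.Agent.H787Z.FT.Sys

set_option autoImplicit false

/-!
Invertible operators preserving the space are scalars.
-/

namespace Pool.Agent.H787Z.FT

open Filter TensorProduct

variable {F : Type} [Field F] [CharZero F] {ι : Type} {φ : ι → Module.End F (ℕ → F)}

omit [CharZero F] in
lemma mem_Aw_univ (P : List ι →₀ F) : P ∈ Aw F (Ov (Set.univ : Set ι)) := by
  induction P using Finsupp.induction_linear with
  | zero => exact zero_mem _
  | add x y hx hy => exact add_mem hx hy
  | single w c => exact single_mem_Aw (fun _ _ => trivial) c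

omit [CharZero F] in
lemma units (hLI : LI φ Set.univ) (P P' : List ι →₀ F)
    (h : ∀ᶠ i in atTop, ev φ P (ev φ P' (e i)) = e i) : ∃ d, P = Finsupp.single [] d := by
  classical
  set Q : List ι →₀ F :=
    ∑ q ∈ P.support ×ˢ P'.support, Finsupp.single (q.1 ++ q.2) (P q.1 * P' q.2) with hQ
  have hev : ev φ Q = ev φ P * ev φ P' := by
    rw [hQ, map_sum, Finset.sum_product]
    conv_rhs => rw [← Finsupp.sum_single P, ← Finsupp.sum_single P']
    rw [Finsupp.sum, Finsupp.sum, map_sum, map_sum, Finset.sum_mul_sum]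
    refine Finset.sum_congr rfl fun w _ => Finset.sum_congr rfl fun w' _ => ?_
    rw [ev_single, ev_single, ev_single, word_append, smul_mul_smul_comm]
  have h1 : Q = Finsupp.single [] 1 := by
    rw [← sub_eq_zero]
    refine hLI _ (mem_Aw_univ _) ?_
    filter_upwards [h] with i hi
    rw [map_sub, hev, ev_single, word_nil, one_smul, LinearMap.sub_apply, Module.End.mul_apply, hi]
    simp
  have hne : (P.support ×ˢ P'.support).Nonempty := by
    by_contra hh
    rw [Finset.not_nonempty_iff_eq_empty] at hh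
    rw [hQ, hh, Finset.sum_empty] at h1
    exact one_ne_zero (Finsupp.single_eq_zero.1 h1.symm)
  obtain ⟨hP, hP'⟩ := Finset.nonempty_product.1 hne
  obtain ⟨w0, hw0, hmax⟩ := P.support.exists_max_image List.length hP
  obtain ⟨w0', hw0', hmax'⟩ := P'.support.exists_max_image List.length hP'
  have h2 : Q (w0 ++ w0') = P w0 * P' w0' := by
    rw [hQ, Finset.sum_apply', Finset.sum_eq_single (w0, w0')]
    · simp
    · rintro ⟨w, w'⟩ hq hne
      obtain ⟨hw, hw'⟩ := Finset.mem_product.1 hq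
      refine Finsupp.single_eq_of_ne' fun heq => hne ?_
      have hl := congrArg List.length heq
      simp only [List.length_append] at hl
      have l1 := hmax w hw
      have l2 := hmax' w' hw'
      obtain ⟨rfl, rfl⟩ := List.append_inj heq (by simp only; omega)
      rfl
    · intro hh
      exact absurd (Finset.mem_product.2 ⟨hw0, hw0'⟩) hh
  have h3 : w0 ++ w0' = [] := by
    by_contra hh
    rw [h1, Finsupp.single_eq_of_ne hh] at h2
    exact mul_ne_zero (Finsupp.mem_support_iff.1 hw0) (Finsupp.mem_support_iff.1 hw0') h2.symm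
  have h4 : w0 = [] := (List.append_eq_nil_iff.1 h3).1
  refine ⟨P [], ?_⟩
  rw [Finsupp.eq_single_iff]
  refine ⟨fun w hw => ?_, rfl⟩
  have := hmax w hw
  rw [h4] at this
  simpa using this

lemma exists_theta {K : Subfield F} {ψ : ℕ × ℕ → F} (hψ : AlgebraicIndependent K ψ) (m : ℕ) :
    ∃ θ : F →ₗ[ℚ] ℚ, θ (ψ (0, m)) ≠ 0 ∧ θ 1 = 0 ∧ ∀ n, n ≠ 0 → θ (ψ (n, m)) = 0 := by
  classical
  obtain ⟨σ, hσ, hg⟩ := exists_spec hψ (fun p => ψ p + if p = (0, m) then 1 else 0)
  have h1 : ψ (0, m) ∉ Submodule.span ℚ (insert (1 : F) {x | ∃ n, n ≠ 0 ∧ x = ψ (n, m)}) := by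
    intro hh
    have key : ∀ y ∈ Submodule.span ℚ (insert (1 : F) {x | ∃ n, n ≠ 0 ∧ x = ψ (n, m)}),
        σ y = y := by
      intro y hy
      induction hy using Submodule.span_induction with
      | mem x hx =>
        rcases hx with rfl | ⟨n, hn, rfl⟩
        · exact hσ.one
        · rw [hg]
          simp [hn]
      | zero => simp
      | add x y _ _ hx hy => rw [map_add, hx, hy]
      | smul q x _ hx =>
        rw [Rat.smul_def, mul_comm, lin_mul σ (SubfieldClass.ratCast_mem K q), hx]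
    have := key _ hh
    rw [hg] at this
    simp at this
  obtain ⟨θ, h2, h3⟩ := Submodule.exists_le_ker_of_notMem h1
  exact ⟨θ, h2, h3 (Submodule.subset_span (Or.inl rfl)),
    fun n hn => h3 (Submodule.subset_span (Or.inr ⟨n, hn, rfl⟩))⟩

lemma rigid (hl : ∀ η, Loc (φ η)) (hLI : LI φ Set.univ) (hfree : Free φ Set.univ)
    {T T' : Module.End F (ℕ → F)} (hT : Loc T) {P P' : List ι →₀ F}
    (hP : ∀ᶠ i in atTop, T (e i) = ev φ P (e i)) (hP' : ∀ᶠ i in atTop, T' (e i) = ev φ P' (e i))
    (hinv : ∀ i, T (T' (e i)) = e i) (hTe : ∀ n, T (e n) ∈ Vq φ (Ov Set.univ))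
    {K : Subfield F} {ψ : ℕ × ℕ → F} (hψ : AlgebraicIndependent K ψ) (m : ℕ)
    (hx : (fun i => ψ (i, m)) ∈ Vq φ (Ov Set.univ))
    (hTx : T (fun i => ψ (i, m)) ∈ Vq φ (Ov Set.univ)) : ∃ d : F, T (e 0) = d • e 0 := by
  obtain ⟨I, hI⟩ := eventually_atTop.1 hP
  have hD : Loc (T - ev φ P) := hT.sub (ev_loc hl P)
  have hDe : ∀ i, I ≤ i → (T - ev φ P) (e i) = 0 := fun i hi => by
    rw [LinearMap.sub_apply, hI i hi, sub_self]
  obtain ⟨d, rfl⟩ := units hLI P P' (by
    filter_upwards [hP', (ev_loc hl P').eventually I] with i hi hi'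
    have h1 := hD.apply_of_kill hDe (ev φ P' (e i))
    rw [Finset.sum_eq_zero (fun n hn => by rw [hi' n (Finset.mem_range.1 hn), zero_smul]),
      LinearMap.sub_apply, sub_eq_zero] at h1
    rw [← h1, ← hi, hinv])
  refine ⟨d, ?_⟩
  have hev : ∀ v, ev φ (Finsupp.single [] d) v = d • v := fun v => by
    rw [ev_single, word_nil]; rfl
  obtain ⟨θ1, hθ1⟩ := exists_theta_one (F := F)
  have hd : d = (θ1 d : F) := by
    have h1 := hfree ((1 : F) ⊗ₜ[ℚ] T (e I) - d ⊗ₜ[ℚ] (e I : ℕ → F))
      (sub_mem (tmul_mem φ (hTe I) 1) (tmul_mem φ (e_mem_Vq φ _ I) d)) (by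
        rw [map_sub, mu_tmul, mu_tmul, one_smul, hI I le_rfl, hev, sub_self])
    have h2 := congrFun (congrArg (th θ1) h1) I
    rw [map_sub, th_tmul, th_tmul, hθ1, one_smul, hI I le_rfl, hev] at h2
    simpa [e_self, Rat.smul_def, sub_eq_zero] using h2
  have hmem : ∀ v ∈ Vq φ (Ov Set.univ), T v ∈ Vq φ (Ov Set.univ) →
      (T - ev φ (Finsupp.single [] d)) v ∈ Vq φ (Ov Set.univ) := by
    intro v hv hTv
    rw [LinearMap.sub_apply, hev, hd, Rat.cast_smul_eq_qsmul]
    exact sub_mem hTv (Submodule.smul_mem _ _ hv)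
  set D := T - ev φ (Finsupp.single [] d) with hDdef
  have hD0 : D (e 0) = 0 := by
    rcases Nat.eq_zero_or_pos I with rfl | hpos
    · exact hDe 0 le_rfl
    obtain ⟨θ, t0, t1, tn⟩ := exists_theta hψ m
    have h1 := hfree ((1 : F) ⊗ₜ[ℚ] D (fun i => ψ (i, m))
        - ∑ n ∈ Finset.range I, ψ (n, m) ⊗ₜ[ℚ] D (e n))
      (sub_mem (tmul_mem φ (hmem _ hx hTx) 1)
        (sum_mem fun n _ => tmul_mem φ (hmem _ (e_mem_Vq φ _ n) (hTe n)) _)) (by
        rw [map_sub, map_sum, mu_tmul, one_smul, hD.apply_of_kill hDe]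
        simp only [mu_tmul, sub_self])
    have h2 := congrArg (th θ) h1
    rw [map_sub, map_sum, th_tmul, t1, zero_smul, map_zero, zero_sub, neg_eq_zero,
      Finset.sum_eq_single 0] at h2
    · rw [th_tmul] at h2
      exact (smul_eq_zero.1 h2).resolve_left t0
    · intro n _ hn
      rw [th_tmul, tn n hn, zero_smul]
    · intro hh
      exact absurd (Finset.mem_range.2 hpos) hh
  rw [hDdef, LinearMap.sub_apply, hev, sub_eq_zero] at hD0
  exact hD0

lemma Vq_image {D : Type} (ρ : D → Module.End F (ℕ → F)) (Φ : ι → D) (T : Set ι) :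
    Vq ρ (Ov (Φ '' T)) = Vq (fun η => ρ (Φ η)) (Ov T) := by
  have hw : ∀ w : List ι, word ρ (w.map Φ) = word (fun η => ρ (Φ η)) w := fun w => by
    simp [word, List.map_map, Function.comp_def]
  apply le_antisymm
  · refine Vq_induction _ fun w hw' n => ?_
    have : ∃ w' : List ι, Ov T w' ∧ w = w'.map Φ := by
      induction w with
      | nil => exact ⟨[], fun η hη => by simp at hη, rfl⟩
      | cons d w ih =>
        obtain ⟨w', h1, rfl⟩ := ih fun η hη => hw' η (List.mem_cons_of_mem _ hη)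
        obtain ⟨η, hη, rfl⟩ := hw' d List.mem_cons_self
        refine ⟨η :: w', fun ζ hζ => ?_, rfl⟩
        rcases List.mem_cons.1 hζ with rfl | hζ
        · exact hη
        · exact h1 ζ hζ
    obtain ⟨w', h1, rfl⟩ := this
    rw [hw]
    exact mem_Vq _ h1 n
  · refine Vq_induction _ fun w hw' n => ?_
    rw [← hw]
    refine mem_Vq _ (fun d hd => ?_) n
    obtain ⟨η, hη, rfl⟩ := List.mem_map.1 hd
    exact ⟨η, hw' η hη, rfl⟩

lemma exists_rec {D : Type} [LinearOrder ι] [WellFoundedLT ι] (P : ι → Set D → D → Prop)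
    (h : ∀ (ξ : ι) (S : Set D), Cardinal.mk S ≤ Cardinal.mk (Set.Iio ξ) → ∃ d, P ξ S d) :
    ∃ Φ : ι → D, ∀ ξ, P ξ (Φ '' Set.Iio ξ) (Φ ξ) := by
  let G : (ξ : ι) → ((η : ι) → η < ξ → D) → D := fun ξ f =>
    Classical.choose (h ξ (Set.range fun η : Set.Iio ξ => f η η.2) Cardinal.mk_range_le)
  refine ⟨(wellFounded_lt (α := ι)).fix G, fun ξ => ?_⟩
  rw [Set.image_eq_range, WellFounded.fix_eq]
  exact Classical.choose_spec
    (h ξ (Set.range fun η : Set.Iio ξ => (wellFounded_lt (α := ι)).fix G η) Cardinal.mk_range_le)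

lemma indep_affine {K : Subfield F} {α : Type} {z : α → F} (hz : AlgebraicIndependent K z)
    (c t : α → K) (hc : ∀ i, c i ≠ 0) :
    AlgebraicIndependent K fun i => (c i : F) * z i + t i := by
  have := hz.polynomial_aeval_of_transcendental
    (f := fun i => Polynomial.C (c i) * Polynomial.X + Polynomial.C (t i)) (fun i => by
      apply Polynomial.transcendental
      · rw [Polynomial.natDegree_linear (hc i)]
        exact one_ne_zero
      · rw [Polynomial.leadingCoeff_linear (hc i)]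
        exact mem_nonZeroDivisors_of_ne_zero (hc i))
  simp only [map_add, map_mul, Polynomial.aeval_C, Polynomial.aeval_X] at this
  exact this

end Pool.Agent.H787Z.FT
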