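import Pool.Agent.H787Z.FT.Loc

set_option autoImplicit false

/-!
The extraction lemma: a relation involving a generic operator splits.
-/

namespace Pool.Agent.H787Z.FT

open Filter

variable {F : Type} [Field F] {K : Subfield F}

/-- The algebra generated by the generic entries. -/
def AA (K : Subfield F) (ψ : ℕ × ℕ → F) : Subalgebra K F := Algebra.adjoin K (Set.range ψ)

/-- The algebra generated by the generic entries of the first `I` rows. -/
def AI (K : Subfield F) (ψ : ℕ × ℕ → F) (I : ℕ) : Subalgebra K F :=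
  Algebra.adjoin K (ψ '' {p | p.1 < I})

lemma AI_le (ψ : ℕ × ℕ → F) (I : ℕ) : AI K ψ I ≤ AA K ψ :=
  Algebra.adjoin_mono (Set.image_subset_range _ _)

lemma AI_mono (ψ : ℕ × ℕ → F) : Monotone (AI K ψ) := fun _ _ h =>
  Algebra.adjoin_mono (Set.image_mono fun _ hp => lt_of_lt_of_le hp h)

lemma mem_K (B : Subalgebra K F) {k : F} (hk : k ∈ K) : k ∈ B :=
  B.algebraMap_mem ⟨k, hk⟩

lemma exists_AI {ψ : ℕ × ℕ → F} {x : F} (hx : x ∈ AA K ψ) : ∃ I, x ∈ AI K ψ I := by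
  induction hx using Algebra.adjoin_induction with
  | mem x hx =>
    obtain ⟨p, rfl⟩ := hx
    exact ⟨p.1 + 1, Algebra.subset_adjoin ⟨p, Nat.lt_succ_self _, rfl⟩⟩
  | algebraMap r => exact ⟨0, Subalgebra.algebraMap_mem _ r⟩
  | add x y _ _ hx hy =>
    obtain ⟨I, hI⟩ := hx
    obtain ⟨J, hJ⟩ := hy
    exact ⟨max I J, add_mem (AI_mono ψ (le_max_left _ _) hI) (AI_mono ψ (le_max_right _ _) hJ)⟩
  | mul x y _ _ hx hy =>
    obtain ⟨I, hI⟩ := hx
    obtain ⟨J, hJ⟩ := hy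
    exact ⟨max I J, mul_mem (AI_mono ψ (le_max_left _ _) hI) (AI_mono ψ (le_max_right _ _) hJ)⟩

lemma exists_AI_fin {ψ : ℕ × ℕ → F} {α : Type*} (s : Finset α) (x : α → F)
    (hx : ∀ a ∈ s, x a ∈ AA K ψ) : ∃ I, ∀ a ∈ s, x a ∈ AI K ψ I := by
  choose! I hI using fun a (ha : a ∈ s) => exists_AI (hx a ha)
  exact ⟨s.sup I, fun a ha => AI_mono ψ (Finset.le_sup (f := I) ha) (hI a ha)⟩

/-- Specialisation maps. -/
structure IsSpec (K : Subfield F) (ψ : ℕ × ℕ → F) (σ : F →ₗ[K] F) : Prop where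
  one : σ 1 = 1
  mul : ∀ x ∈ AA K ψ, ∀ y ∈ AA K ψ, σ (x * y) = σ x * σ y

lemma isSpec_id (ψ : ℕ × ℕ → F) : IsSpec K ψ LinearMap.id := ⟨rfl, fun _ _ _ _ => rfl⟩

lemma lin_mul (σ : F →ₗ[K] F) {k : F} (hk : k ∈ K) (x : F) : σ (x * k) = σ x * k := by
  have := σ.map_smul (⟨k, hk⟩ : K) x
  simpa [Subfield.smul_def, mul_comm] using this

lemma IsSpec.fix {ψ : ℕ × ℕ → F} {σ : F →ₗ[K] F} (h : IsSpec K ψ σ) {k : F} (hk : k ∈ K) :
    σ k = k := by
  have := lin_mul σ hk 1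
  rwa [one_mul, h.one, one_mul] at this

lemma exists_spec {ψ : ℕ × ℕ → F} (hψ : AlgebraicIndependent K ψ) (g : ℕ × ℕ → F) :
    ∃ σ : F →ₗ[K] F, IsSpec K ψ σ ∧ ∀ p, σ (ψ p) = g p := by
  let τ : AA K ψ →ₐ[K] F := (MvPolynomial.aeval g).comp hψ.aevalEquiv.symm.toAlgHom
  let τ' : (Subalgebra.toSubmodule (AA K ψ)) →ₗ[K] F := τ.toLinearMap
  obtain ⟨σ, hσ⟩ := LinearMap.exists_extend τ'
  have key : ∀ (x : F) (hx : x ∈ AA K ψ), σ x = τ ⟨x, hx⟩ := fun x hx =>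
    LinearMap.congr_fun hσ ⟨x, hx⟩
  refine ⟨σ, ⟨?_, ?_⟩, ?_⟩
  · rw [key 1 (one_mem _)]
    exact map_one τ
  · intro x hx y hy
    rw [key _ (mul_mem hx hy), key x hx, key y hy, ← map_mul]
    rfl
  · intro p
    have hp : ψ p ∈ AA K ψ := Algebra.subset_adjoin ⟨p, rfl⟩
    rw [key _ hp]
    have : hψ.aevalEquiv.symm ⟨ψ p, hp⟩ = MvPolynomial.X p := by
      rw [AlgEquiv.symm_apply_eq]
      apply Subtype.ext
      simp [AlgebraicIndependent.aevalEquiv]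
    show MvPolynomial.aeval g (hψ.aevalEquiv.symm ⟨ψ p, hp⟩) = g p
    rw [this, MvPolynomial.aeval_X]

lemma spec_agree {ψ : ℕ × ℕ → F} {σ σ' : F →ₗ[K] F} (h : IsSpec K ψ σ) (h' : IsSpec K ψ σ')
    {T : Set (ℕ × ℕ)} (hT : ∀ p ∈ T, σ (ψ p) = σ' (ψ p)) {x : F}
    (hx : x ∈ Algebra.adjoin K (ψ '' T)) : σ x = σ' x := by
  have hle : Algebra.adjoin K (ψ '' T) ≤ AA K ψ := Algebra.adjoin_mono (Set.image_subset_range _ _)
  induction hx using Algebra.adjoin_induction with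
  | mem x hx =>
    obtain ⟨p, hp, rfl⟩ := hx
    exact hT p hp
  | algebraMap r => exact (h.fix r.2).trans (h'.fix r.2).symm
  | add x y _ _ hx hy => rw [map_add, map_add, hx, hy]
  | mul x y hx' hy' hx hy => rw [h.mul x (hle hx') y (hle hy'), h'.mul x (hle hx') y (hle hy'), hx, hy]

lemma piMap_mem {a : ℕ → F} (ha : ∀ n, a n ∈ K) (n0 : ℕ) (B : Subalgebra K F) {u : ℕ → F} {j : ℕ}
    (hj : u j ∈ B) (h0 : u n0 ∈ B) : piMap a n0 u j ∈ B := by
  rw [piMap_apply]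
  exact sub_mem hj (mul_mem h0 (mem_K B (K.mul_mem (K.inv_mem (ha n0)) (ha j))))

lemma piMap_spec {a : ℕ → F} (ha : ∀ n, a n ∈ K) (n0 : ℕ) (σ : F →ₗ[K] F) (u : ℕ → F) (j : ℕ) :
    σ (piMap a n0 u j) = piMap a n0 (fun n => σ (u n)) j := by
  rw [piMap_apply, piMap_apply, map_sub, lin_mul σ (K.mul_mem (K.inv_mem (ha n0)) (ha j))]

lemma phi_spec {ψ g : ℕ × ℕ → F} {σ : F →ₗ[K] F} (h : IsSpec K ψ σ) (hg : ∀ p, σ (ψ p) = g p)
    {a b : ℕ → F} (ha : ∀ n, a n ∈ K) (hb : ∀ n, b n ∈ K) (n0 : ℕ) {u : ℕ → F}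
    (hu : ∀ n, u n ∈ AA K ψ) (i : ℕ) :
    σ (phi ψ a b n0 u i) = phi g a b n0 (fun n => σ (u n)) i := by
  rw [phi_apply, phi_apply, map_add, map_sum, lin_mul σ (K.mul_mem (K.inv_mem (ha n0)) (hb i))]
  congr 1
  refine Finset.sum_congr rfl fun j _ => ?_
  rw [h.mul _ (Algebra.subset_adjoin ⟨_, rfl⟩) _ (piMap_mem ha n0 _ (hu j) (hu n0)), hg,
    piMap_spec ha]

lemma phi_over {ψ : ℕ × ℕ → F} {a b : ℕ → F} (ha : ∀ n, a n ∈ K) (hb : ∀ n, b n ∈ K) (n0 : ℕ) :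
    Over (AA K ψ : Set F) (phi ψ a b n0) := by
  intro h n
  have he : ∀ m, (e n : ℕ → F) m ∈ AA K ψ := fun m => e_mem (AA K ψ).toSubring n m
  show _ ∈ AA K ψ
  rw [phi_apply]
  refine add_mem (sum_mem fun j _ => mul_mem (Algebra.subset_adjoin ⟨_, rfl⟩)
    (piMap_mem ha n0 _ (he j) (he n0))) (mul_mem (he n0) ?_)
  exact mem_K _ (K.mul_mem (K.inv_mem (ha n0)) (hb h))

/-- Extraction for vectors with polynomial coordinates. -/
lemma extract0 {ψ : ℕ × ℕ → F} (hψ : AlgebraicIndependent K ψ) {a b : ℕ → F}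
    (ha : ∀ n, a n ∈ K) (hb : ∀ n, b n ∈ K) (n0 : ℕ) {α : Type*} (s : Finset α)
    (r : α → Module.End F (ℕ → F)) (hl : ∀ x ∈ s, Loc (r x)) (ho : ∀ x ∈ s, Over (K : Set F) (r x))
    (U : α → ℕ → F) (hU : ∀ x ∈ s, ∀ n, U x n ∈ AA K ψ) (v : ℕ → F) (I : ℕ)
    (hv : ∀ n, v n ∈ AI K ψ I) (hrel : v + ∑ x ∈ s, r x (phi ψ a b n0 (U x)) = 0) (j : ℕ) :
    ∀ᶠ i in atTop, ∑ x ∈ s, piMap a n0 (U x) j • r x (e i) = 0 := by
  classical
  obtain ⟨I1, hI1⟩ := exists_AI_fin (K := K) s (fun x => piMap a n0 (U x) j)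
    (fun x hx => piMap_mem ha n0 _ (hU x hx j) (hU x hx n0))
  set i0 := max I I1 with hi0
  obtain ⟨I2, hI2⟩ := exists_AI_fin (K := K) (s ×ˢ Finset.range (max (i0 + 2) (n0 + 1)))
    (fun q => U q.1 q.2) (fun q hq => hU q.1 (Finset.mem_product.1 hq).1 q.2)
  filter_upwards [eventually_ge_atTop (max (max i0 I2) j)] with i hi
  have hi0i : i0 ≤ i := le_trans (le_trans (le_max_left _ _) (le_max_left _ _)) hi
  have hI2i : I2 ≤ i := le_trans (le_trans (le_max_right _ _) (le_max_left _ _)) hi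
  have hji : j ≤ i := le_trans (le_max_right _ _) hi
  let g0 : ℕ × ℕ → F := fun p => if p.1 < i0 then ψ p else 0
  let g1 : ℕ × ℕ → F := fun p => g0 p + if p = (i, j) then 1 else 0
  obtain ⟨σ0, hσ0, hg0⟩ := exists_spec hψ g0
  obtain ⟨σ1, hσ1, hg1⟩ := exists_spec hψ g1
  have agree01 : ∀ x ∈ AI K ψ i, σ1 x = σ0 x := fun x hx =>
    spec_agree hσ1 hσ0 (fun p hp => by
      rw [hg0, hg1]
      have : p ≠ (i, j) := by
        rintro rfl
        exact lt_irrefl i hp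
      simp [g1, this]) hx
  have agree0 : ∀ x ∈ AI K ψ i0, σ0 x = x := fun x hx =>
    spec_agree hσ0 (isSpec_id ψ) (fun p hp => by
      rw [hg0]
      have hp' : p.1 < i0 := hp
      simp [g0, hp']) hx
  have rel : ∀ (σ : F →ₗ[K] F) (g : ℕ × ℕ → F), IsSpec K ψ σ → (∀ p, σ (ψ p) = g p) → ∀ h,
      σ (v h) + ∑ x ∈ s, r x (phi g a b n0 (fun n => σ (U x n))) h = 0 := by
    intro σ g hσ hg h
    have h1 := congrArg σ (congrFun hrel h)
    simp only [Pi.add_apply, Finset.sum_apply, map_add, map_sum, Pi.zero_apply, map_zero] at h1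
    rw [← h1]
    congr 1
    refine Finset.sum_congr rfl fun x hx => ?_
    have h2 := (hl x hx).comm (ho x hx) σ.toAddMonoidHom (fun k hk y => lin_mul σ hk y)
      (phi ψ a b n0 (U x)) h
    simp only [LinearMap.toAddMonoidHom_coe] at h2
    rw [h2]
    have h3 : (phi g a b n0 fun n => σ (U x n)) = fun n => σ (phi ψ a b n0 (U x) n) :=
      funext fun n => (phi_spec hσ hg ha hb n0 (hU x hx) n).symm
    rw [h3]
  have step : ∀ x ∈ s, phi g1 a b n0 (fun n => σ1 (U x n))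
      = phi g0 a b n0 (fun n => σ0 (U x n)) + piMap a n0 (U x) j • e i := by
    intro x hx
    have hlow : ∀ n < max (i0 + 2) (n0 + 1), σ1 (U x n) = σ0 (U x n) := fun n hn =>
      agree01 _ (AI_mono ψ hI2i (hI2 (x, n) (Finset.mem_product.2 ⟨hx, Finset.mem_range.2 hn⟩)))
    have hn0 : σ1 (U x n0) = σ0 (U x n0) :=
      hlow n0 (lt_of_lt_of_le (Nat.lt_succ_self _) (le_max_right _ _))
    have hpj : piMap a n0 (fun n => σ1 (U x n)) j = piMap a n0 (U x) j := by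
      rw [← piMap_spec ha]
      have hm := AI_mono ψ (le_max_right I I1) (hI1 x hx)
      rw [agree01 _ (AI_mono ψ hi0i hm), agree0 _ hm]
    funext i'
    rw [Pi.add_apply, phi_apply, phi_apply, hn0, add_right_comm]
    congr 1
    simp only [g1, add_mul, Finset.sum_add_distrib]
    congr 1
    · refine Finset.sum_congr rfl fun j' hj' => ?_
      by_cases hi' : i' < i0
      · have hj'' : j' < max (i0 + 2) (n0 + 1) :=
          lt_of_lt_of_le (by have := Finset.mem_range.1 hj'; omega) (le_max_left _ _)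
        rw [piMap_apply, piMap_apply, hn0, hlow j' hj'']
      · simp [g0, hi']
    · by_cases hi' : i' = i
      · subst hi'
        rw [Finset.sum_eq_single j]
        · simp [hpj, e_self]
        · intro j' _ hj'
          simp [hj']
        · intro hh
          exact absurd (Finset.mem_range.2 (by omega)) hh
      · simp [hi', e_ne hi']
  funext h
  have r0 := rel σ0 g0 hσ0 hg0 h
  have r1 := rel σ1 g1 hσ1 hg1 h
  rw [agree01 _ (AI_mono ψ (le_trans (le_max_left _ _) hi0i) (hv h)),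
    Finset.sum_congr rfl (fun x hx => by rw [step x hx])] at r1
  simp only [map_add, map_smul, Pi.add_apply, Finset.sum_add_distrib] at r1
  rw [← add_assoc, r0, zero_add] at r1
  simpa [Finset.sum_apply] using r1

/-- The field generated by the generic entries. -/
def LL (K : Subfield F) (ψ : ℕ × ℕ → F) : IntermediateField K F :=
  IntermediateField.adjoin K (Set.range ψ)

lemma AA_le_LL {ψ : ℕ × ℕ → F} {x : F} (hx : x ∈ AA K ψ) : x ∈ LL K ψ :=
  IntermediateField.algebra_adjoin_le_adjoin K _ hx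

lemma exists_den {ψ : ℕ × ℕ → F} {x : F} (hx : x ∈ LL K ψ) :
    ∃ d ∈ AA K ψ, d ≠ 0 ∧ d * x ∈ AA K ψ := by
  obtain ⟨r, hr, s, hs, rfl⟩ := IntermediateField.mem_adjoin_iff_div.1 hx
  by_cases h : s = 0
  · exact ⟨1, one_mem _, one_ne_zero, by simp [h]⟩
  · refine ⟨s, hs, h, ?_⟩
    rw [mul_div_cancel₀ _ h]
    exact hr

lemma theta_mul {ψ : ℕ × ℕ → F} (θ : F →ₗ[LL K ψ] LL K ψ) {k : F} (hk : k ∈ LL K ψ) (x : F) :
    (θ (x * k) : F) = (θ x : F) * k := by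
  have := θ.map_smul (⟨k, hk⟩ : LL K ψ) x
  have h2 : (⟨k, hk⟩ : LL K ψ) • x = x * k := by
    rw [mul_comm]; rfl
  rw [h2] at this
  rw [this, mul_comm]
  rfl

lemma clear_den {ψ : ℕ × ℕ → F} (B : ℕ → Subalgebra K F) (hmono : Monotone B)
    (hB : ∀ x ∈ AA K ψ, ∃ I, x ∈ B I) (hB0 : B 0 ≤ AA K ψ) {U : ℕ → F}
    (hU : U ∈ Submodule.span F {u : ℕ → F | ∀ n, u n ∈ B 0}) (θ : F →ₗ[LL K ψ] LL K ψ) :
    ∃ d ∈ AA K ψ, d ≠ 0 ∧ ∃ I, ∀ n, d * (θ (U n) : F) ∈ B I := by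
  induction hU using Submodule.span_induction generalizing θ with
  | mem u hu =>
    obtain ⟨d, hd, hd0, hd1⟩ := exists_den (θ 1).2
    obtain ⟨I, hI⟩ := hB _ hd1
    refine ⟨d, hd, hd0, I, fun n => ?_⟩
    have := theta_mul θ (AA_le_LL (hB0 (hu n))) 1
    rw [one_mul] at this
    rw [this, ← mul_assoc]
    exact mul_mem hI (hmono (Nat.zero_le I) (hu n))
  | zero => exact ⟨1, one_mem _, one_ne_zero, 0, fun n => by simp⟩
  | add x y _ _ hx hy =>
    obtain ⟨d, hd, hd0, I, hI⟩ := hx θ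
    obtain ⟨d', hd', hd0', I', hI'⟩ := hy θ
    obtain ⟨J, hJ⟩ := hB d hd
    obtain ⟨J', hJ'⟩ := hB d' hd'
    refine ⟨d * d', mul_mem hd hd', mul_ne_zero hd0 hd0', max (max I I') (max J J'), fun n => ?_⟩
    have e1 : d * d' * (θ ((x + y) n) : F) = d' * (d * θ (x n)) + d * (d' * θ (y n)) := by
      simp only [Pi.add_apply, map_add, AddMemClass.coe_add]
      ring
    rw [e1]
    refine add_mem (mul_mem (hmono ?_ hJ') (hmono ?_ (hI n))) (mul_mem (hmono ?_ hJ) (hmono ?_ (hI' n)))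
    all_goals omega
  | smul c x _ hx =>
    obtain ⟨d, hd, hd0, I, hI⟩ := hx (θ.comp (LinearMap.mulLeft (LL K ψ) c))
    exact ⟨d, hd, hd0, I, fun n => by simpa using hI n⟩

/-- The extraction lemma. -/
lemma extract {ψ : ℕ × ℕ → F} (hψ : AlgebraicIndependent K ψ) {a b : ℕ → F}
    (ha : ∀ n, a n ∈ K) (hb : ∀ n, b n ∈ K) (n0 : ℕ) {α : Type*} (s : Finset α)
    (r : α → Module.End F (ℕ → F)) (hl : ∀ x ∈ s, Loc (r x)) (ho : ∀ x ∈ s, Over (K : Set F) (r x))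
    (hLI : ∀ γ : α → F, (∀ᶠ i in atTop, ∑ x ∈ s, γ x • r x (e i) = 0) → ∀ x ∈ s, γ x = 0)
    (U : α → ℕ → F) (hU : ∀ x ∈ s, U x ∈ Submodule.span F {u : ℕ → F | ∀ n, u n ∈ AA K ψ})
    (v : ℕ → F) (hv : v ∈ Submodule.span F {u : ℕ → F | ∀ n, u n ∈ K})
    (hrel : v + ∑ x ∈ s, r x (phi ψ a b n0 (U x)) = 0) : ∀ x ∈ s, piMap a n0 (U x) = 0 := by
  classical
  intro x0 hx0
  funext j
  rw [Pi.zero_apply, ← Module.forall_dual_apply_eq_zero_iff (LL K ψ)]
  intro θ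
  have hv' : v ∈ Submodule.span F {u : ℕ → F | ∀ n, u n ∈ AI K ψ 0} :=
    Submodule.span_mono (s := {u : ℕ → F | ∀ n, u n ∈ K})
      (t := {u : ℕ → F | ∀ n, u n ∈ AI K ψ 0})
      (fun u (hu : ∀ n, u n ∈ K) n => mem_K (AI K ψ 0) (hu n)) hv
  obtain ⟨d0, hd0, hd00, I, hI⟩ := clear_den (ψ := ψ) (AI K ψ) (AI_mono ψ) (fun x hx => exists_AI hx)
    (AI_le ψ 0) hv' θ
  have hch := fun x (hx : x ∈ s) => clear_den (ψ := ψ) (fun _ => AA K ψ) monotone_const
    (fun x hx => ⟨0, hx⟩) le_rfl (hU x hx) θ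
  choose! d hd hdne hdI using hch
  set D := d0 * ∏ x ∈ s, d x with hD
  have hP : ∏ x ∈ s, d x ∈ AA K ψ := prod_mem hd
  have hDA : D ∈ AA K ψ := mul_mem hd0 hP
  have hDne : D ≠ 0 := mul_ne_zero hd00 (Finset.prod_ne_zero_iff.2 hdne)
  obtain ⟨J, hJ⟩ := exists_AI hP
  let τ : F →+ F := ((AddMonoidHom.mulLeft D).comp (LL K ψ).val.toRingHom.toAddMonoidHom).comp
    θ.toAddMonoidHom
  have hτ : ∀ y, τ y = D * (θ y : F) := fun y => rfl
  have hτmul : ∀ k ∈ LL K ψ, ∀ y, τ (y * k) = τ y * k := by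
    intro k hk y
    rw [hτ, hτ, theta_mul θ hk, mul_assoc D]
  have hKL : ∀ k ∈ K, k ∈ LL K ψ := fun k hk => AA_le_LL (mem_K _ hk)
  have h1 := extract0 hψ ha hb n0 s r hl ho (fun x n => τ (U x n)) (by
      intro x hx n
      obtain ⟨_, hh⟩ := hdI x hx
      rw [hτ, hD, ← Finset.mul_prod_erase s d hx]
      have : d0 * (d x * ∏ x ∈ s.erase x, d x) * (θ (U x n) : F)
          = (d0 * ∏ x ∈ s.erase x, d x) * (d x * θ (U x n)) := by ring
      rw [this]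
      exact mul_mem (mul_mem hd0 (prod_mem fun y hy => hd y (Finset.mem_of_mem_erase hy))) (hh n))
    (fun n => τ (v n)) (max I J) (by
      intro n
      rw [hτ, hD]
      have : (d0 * ∏ x ∈ s, d x) * (θ (v n) : F) = (∏ x ∈ s, d x) * (d0 * θ (v n)) := by ring
      rw [this]
      exact mul_mem (AI_mono ψ (le_max_right _ _) hJ) (AI_mono ψ (le_max_left _ _) (hI n))) (by
      funext h
      have h1 := congrArg τ (congrFun hrel h)
      simp only [Pi.add_apply, Finset.sum_apply, map_add, map_sum, Pi.zero_apply, map_zero] at h1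
      simp only [Pi.add_apply, Finset.sum_apply, Pi.zero_apply]
      rw [← h1]
      congr 1
      refine Finset.sum_congr rfl fun x hx => ?_
      rw [(hl x hx).comm (ho x hx) τ (fun k hk y => hτmul k (hKL k hk) y)]
      have h3 : (phi ψ a b n0 fun n => τ (U x n)) = fun n => τ (phi ψ a b n0 (U x) n) :=
        funext fun n => ((phi_loc ψ a b n0).comm (phi_over ha hb n0) τ
          (fun k hk y => hτmul k (AA_le_LL hk) y) (U x) n).symm
      rw [h3]) j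
  have h2 := hLI _ h1 x0 hx0
  have h3 : piMap a n0 (fun n => τ (U x0 n)) j = τ (piMap a n0 (U x0) j) := by
    rw [piMap_apply, piMap_apply, map_sub,
      hτmul _ (hKL _ (K.mul_mem (K.inv_mem (ha n0)) (ha j)))]
  rw [h3, hτ] at h2
  have h4 := (mul_eq_zero.1 h2).resolve_left hDne
  exact Subtype.ext h4

end Pool.Agent.H787Z.FT
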