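import Pool.Agent.H787Z.FT.Rigid

set_option autoImplicit false

/-!
One step of the construction over the `2`-adic numbers.
-/

namespace Pool.Agent.H787Z.FT

open Filter Cardinal Topology

/-- The ground field. -/
abbrev Q2 : Type := ℚ_[2]

lemma mk_Q2 : #Q2 = 𝔠 := by
  apply le_antisymm
  · choose r hr using fun (x : Q2) (n : ℕ) =>
      Padic.rat_dense 2 x (ε := 1 / ((n : ℝ) + 1)) Nat.one_div_pos_of_nat
    have hinj : Function.Injective r := by
      intro x y hxy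
      have t : ∀ z : Q2, Tendsto (fun n => (r z n : Q2)) atTop (𝓝 z) := by
        intro z
        rw [tendsto_iff_norm_sub_tendsto_zero]
        refine squeeze_zero (fun n => norm_nonneg _) (fun n => ?_)
          tendsto_one_div_add_atTop_nhds_zero_nat
        rw [norm_sub_rev]
        exact (hr z n).le
      have := t x
      rw [hxy] at this
      exact tendsto_nhds_unique this (t y)
    have := Cardinal.mk_le_of_injective hinj
    simpa using this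
  · exact continuum_le_cardinal_of_nontriviallyNormedField Q2

lemma norm_two : ‖(2 : Q2)‖ = 1 / 2 := by
  have := Padic.norm_p (p := 2)
  simpa using this

lemma norm_two_pow (k : ℕ) : ‖(2 : Q2) ^ k‖ = (1 / 2) ^ k := by rw [norm_pow, norm_two]

lemma mk_adjoin_lt {K : Subfield Q2} (hK : #K < 𝔠) {s : Set Q2} (hs : #s ≤ ℵ₀) :
    #(Algebra.adjoin K s) < 𝔠 := by
  refine lt_of_le_of_lt (Algebra.cardinalMk_adjoin_le K s) ?_
  exact max_lt (max_lt hK (lt_of_le_of_lt hs aleph0_lt_continuum)) aleph0_lt_continuum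

lemma exists_indep {K : Subfield Q2} (hK : #K < 𝔠) :
    ∃ z : ℕ × ℕ → Q2, AlgebraicIndependent K z ∧ ∀ p, ‖z p‖ ≤ (1 / 2) ^ p.1 := by
  obtain ⟨s, hs⟩ := exists_isTranscendenceBasis K Q2
  have hinf : Infinite s := by
    by_contra hfin
    rw [not_infinite_iff_finite] at hfin
    have := hs.isAlgebraic
    have h1 := Algebra.IsAlgebraic.cardinalMk_le_max
      (Algebra.adjoin K (Set.range ((↑) : s → Q2))) Q2
    have h2 := mk_adjoin_lt hK (s := Set.range ((↑) : s → Q2))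
      (le_trans mk_range_le (le_of_lt (lt_aleph0_of_finite s)))
    rw [mk_Q2] at h1
    exact absurd h1 (not_le.2 (max_lt h2 aleph0_lt_continuum))
  let f : ℕ × ℕ → s := fun p => Infinite.natEmbedding s (Nat.pair p.1 p.2)
  have hf : Function.Injective f := fun p q h => by
    have := Nat.pair_eq_pair.1 ((Infinite.natEmbedding s).injective h)
    exact Prod.ext this.1 this.2
  have h1 := hs.1.comp f hf
  have h2 : ∀ p : ℕ × ℕ, ∃ k : ℕ, ‖(2 : Q2) ^ k * (f p : Q2)‖ ≤ (1 / 2) ^ p.1 := by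
    intro p
    have t : Tendsto (fun k : ℕ => (1 / 2 : ℝ) ^ k * ‖(f p : Q2)‖) atTop (𝓝 0) := by
      simpa using (tendsto_pow_atTop_nhds_zero_of_lt_one (r := (1 / 2 : ℝ)) (by norm_num)
        (by norm_num)).mul_const ‖(f p : Q2)‖
    obtain ⟨k, hk⟩ := (t.eventually (ge_mem_nhds (a := (1 / 2 : ℝ) ^ p.1)
      (pow_pos (by norm_num) _))).exists
    exact ⟨k, by rwa [norm_mul, norm_two_pow]⟩
  choose k hk using h2
  have h3 := indep_affine h1 (fun p => (2 : K) ^ k p) (fun _ => 0)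
    (fun p => pow_ne_zero _ two_ne_zero)
  refine ⟨_, h3, fun p => ?_⟩
  have h4 : ((2 : K) : Q2) = 2 := by norm_cast
  simpa [h4] using hk p

lemma perturb (l : ℕ → Q2) (hl : ∀ n, ‖l n‖ ≤ 1) (hinf : ∀ n, ∃ k, n ≤ k ∧ l k ≠ 0) (s : Q2) :
    ∃ (δ : ℕ → ℚ) (q : ℚ), (∀ n, ‖(δ n : Q2) / l n‖ ≤ (1 / 2) ^ n) ∧
      HasSum (fun n => l n * ((δ n : Q2) / l n)) (s - q) := by
  classical
  let w : ℕ → ℝ := fun k => if l k = 0 then (1 / 2) ^ k else ‖l k‖ * (1 / 2) ^ k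
  have hw0 : ∀ k, 0 < w k := fun k => by
    by_cases h : l k = 0
    · simp [w, h]
    · have := norm_pos_iff.2 h
      simp only [w, h, if_false]
      positivity
  have hw1 : ∀ k, w k ≤ (1 / 2) ^ k := fun k => by
    by_cases h : l k = 0
    · simp [w, h]
    · simp only [w, h, if_false]
      exact mul_le_of_le_one_left (by positivity) (hl k)
  let η : ℕ → ℝ := fun m => (Finset.range (m + 1)).inf' (by simp) w
  have hη0 : ∀ m, 0 < η m := fun m => (Finset.lt_inf'_iff _).2 fun k _ => hw0 k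
  have hη1 : ∀ m k, k ≤ m → η m ≤ w k := fun m k h =>
    Finset.inf'_le w (Finset.mem_range.2 (Nat.lt_succ_of_le h))
  choose Q hQ using fun m => Padic.rat_dense 2 s (hη0 m)
  let N : ℕ → ℕ := fun n => Nat.find (hinf n)
  have hN : ∀ n, n ≤ N n ∧ l (N n) ≠ 0 := fun n => Nat.find_spec (hinf n)
  have hN1 : ∀ n, l n ≠ 0 → N n = n := fun n h =>
    le_antisymm (Nat.find_min' _ ⟨le_rfl, h⟩) (hN n).1
  have hN2 : ∀ n, l n = 0 → N (n + 1) = N n := fun n h => by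
    apply le_antisymm
    · refine Nat.find_min' _ ⟨?_, (hN n).2⟩
      refine Nat.succ_le_of_lt (lt_of_le_of_ne (hN n).1 fun hh => (hN n).2 ?_)
      rw [← hh]; exact h
    · exact Nat.find_min' _ ⟨le_trans (Nat.le_succ n) (hN (n + 1)).1, (hN (n + 1)).2⟩
  let q : ℕ → ℚ := fun n => Q (N n)
  have hq : ∀ n k, k ≤ n → ‖s - q n‖ ≤ w k := fun n k h =>
    le_trans (hQ (N n)).le (hη1 _ _ (le_trans h (hN n).1))
  have hδ : ∀ n, ‖((q (n + 1) - q n : ℚ) : Q2)‖ ≤ w n := fun n => by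
    have e1 : ((q (n + 1) - q n : ℚ) : Q2) = (s - q n) + -(s - q (n + 1)) := by
      push_cast; ring
    rw [e1]
    refine le_trans (IsUltrametricDist.norm_add_le_max _ _) (max_le (hq n n le_rfl) ?_)
    rw [norm_neg]
    exact hq (n + 1) n (Nat.le_succ n)
  have hmul : ∀ n, l n * (((q (n + 1) - q n : ℚ) : Q2) / l n) = (q (n + 1) : Q2) - q n := by
    intro n
    by_cases h : l n = 0
    · simp [q, hN2 n h]
    · push_cast
      field_simp
  refine ⟨fun n => q (n + 1) - q n, q 0, fun n => ?_, ?_⟩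
  · by_cases h : l n = 0
    · simp [h]
    · have h1 := hδ n
      simp only [w, h, if_false] at h1
      rw [norm_div, div_le_iff₀ (norm_pos_iff.2 h), mul_comm]
      exact h1
  · simp only [hmul]
    have hs : Summable fun n => (q (n + 1) : Q2) - q n := by
      refine Summable.of_norm_bounded summable_geometric_two fun n => ?_
      have := le_trans (hδ n) (hw1 n)
      push_cast at this
      exact this
    rw [hs.hasSum_iff_tendsto_nat]
    simp only [Finset.sum_range_sub (fun n => (q n : Q2))]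
    refine Tendsto.sub_const ?_ _
    rw [tendsto_iff_norm_sub_tendsto_zero]
    refine squeeze_zero (fun n => norm_nonneg _) (fun n => ?_)
      (tendsto_pow_atTop_nhds_zero_of_lt_one (r := (1 / 2 : ℝ)) (by norm_num) (by norm_num))
    rw [norm_sub_rev]
    exact le_trans (hq n n le_rfl) (hw1 n)

/-- Data produced at a step: an operator and a forbidden vector. -/
abbrev Dat : Type := Module.End Q2 (ℕ → Q2) × (ℕ → Q2)

/-- A task: two vectors and a matrix. -/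
abbrev Task : Type := (ℕ → Q2) × (ℕ → Q2) × (ℕ → ℕ → Q2)

/-- A pair of vectors that can be joined. -/
def Valid (S : Set Dat) (a b : ℕ → Q2) (n0 : ℕ) : Prop :=
  a ∈ Vq Prod.fst (Ov S) ∧ b ∈ Vq Prod.fst (Ov S) ∧ ‖a n0‖ = 1 ∧ (∀ n, ‖a n‖ ≤ 1) ∧
    (∀ n, ‖b n‖ ≤ 1) ∧ Tendsto b atTop (𝓝 0)

/-- The specification of a step. -/
def StepSpec (t : Task) (S : Set Dat) (d : Dat) : Prop :=
  ∃ (K : Subfield Q2) (ψ : ℕ × ℕ → Q2) (a b : ℕ → Q2) (n0 m : ℕ),
    AlgebraicIndependent K ψ ∧ Valid S a b n0 ∧ d.1 = phi ψ a b n0 ∧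
    (∀ p, ‖ψ p‖ ≤ (1 / 2) ^ p.1) ∧ (∀ d' ∈ S, Over (K : Set Q2) d'.1 ∧ ∀ n, d'.2 n ∈ K) ∧
    (∀ h n, t.2.2 h n ∈ K) ∧ m ≠ n0 ∧ m < 2 ∧ (d.2 = fun h => ∑' n, t.2.2 h n * ψ (n, m)) ∧
    ((∀ h n, ‖t.2.2 h n‖ ≤ 1) → (∀ h, ∃ J, ∀ n, J ≤ n → t.2.2 h n = 0) ∨ ∃ h, d.2 h ∉ AA K ψ) ∧
    ((∃ n, Valid S t.1 t.2.1 n) → a = t.1 ∧ b = t.2.1)

lemma norm_e_le (n m : ℕ) : ‖(e n : ℕ → Q2) m‖ ≤ 1 := by
  by_cases h : m = n
  · subst h; simp [e_self]
  · simp [e_ne h]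

lemma tendsto_e (n : ℕ) : Tendsto (e n : ℕ → Q2) atTop (𝓝 0) := by
  refine tendsto_const_nhds.congr' ?_
  filter_upwards [eventually_gt_atTop n] with m hm
  exact (e_ne (ne_of_gt hm)).symm

lemma exists_field (M : ℕ → ℕ → Q2) (S : Set Dat) (hS : #S < 𝔠) :
    ∃ K : Subfield Q2, #K < 𝔠 ∧ (∀ d' ∈ S, Over (K : Set Q2) d'.1 ∧ ∀ n, d'.2 n ∈ K) ∧
      ∀ h n, M h n ∈ K := by
  let g : (S × ℕ × ℕ) ⊕ (S × ℕ) ⊕ (ℕ × ℕ) → Q2 :=
    Sum.elim (fun x => x.1.1.1 (e x.2.2) x.2.1) (Sum.elim (fun x => x.1.1.2 x.2) fun x => M x.1 x.2)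
  refine ⟨Subfield.closure (Set.range g), ?_, fun d hd => ⟨fun h n => ?_, fun n => ?_⟩,
    fun h n => ?_⟩
  · refine lt_of_le_of_lt (Subfield.cardinalMk_closure_le_max _) (max_lt ?_ aleph0_lt_continuum)
    refine lt_of_le_of_lt mk_range_le ?_
    simp only [mk_sum, mk_prod, lift_id, mk_nat]
    have hc := aleph0_le_continuum
    have h0 := aleph0_lt_continuum
    exact add_lt_of_lt hc (mul_lt_of_lt hc hS (mul_lt_of_lt hc h0 h0))
      (add_lt_of_lt hc (mul_lt_of_lt hc hS h0) (mul_lt_of_lt hc h0 h0))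
  · exact Subfield.subset_closure ⟨Sum.inl (⟨d, hd⟩, h, n), rfl⟩
  · exact Subfield.subset_closure ⟨Sum.inr (Sum.inl (⟨d, hd⟩, n)), rfl⟩
  · exact Subfield.subset_closure ⟨Sum.inr (Sum.inr (h, n)), rfl⟩

lemma exists_psi {K : Subfield Q2} (hK : #K < 𝔠) (M : ℕ → ℕ → Q2) (hM : ∀ h n, M h n ∈ K) (m : ℕ) :
    ∃ ψ : ℕ × ℕ → Q2, AlgebraicIndependent K ψ ∧ (∀ p, ‖ψ p‖ ≤ (1 / 2) ^ p.1) ∧
      ((∀ h n, ‖M h n‖ ≤ 1) → (∀ h, ∃ J, ∀ n, J ≤ n → M h n = 0) ∨
        ∃ h, ∑' n, M h n * ψ (n, m) ∉ AA K ψ) := by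
  classical
  obtain ⟨z, hz, hzn⟩ := exists_indep hK
  by_cases hb : ∀ h n, ‖M h n‖ ≤ 1
  swap
  · exact ⟨z, hz, hzn, fun h => absurd h hb⟩
  by_cases hr : ∀ h, ∃ J, ∀ n, J ≤ n → M h n = 0
  · exact ⟨z, hz, hzn, fun _ => Or.inl hr⟩
  push Not at hr
  obtain ⟨h, hh⟩ := hr
  have h1 : #(AA K z) < 𝔠 := mk_adjoin_lt hK (le_trans mk_range_le (by simp))
  obtain ⟨s0, hs0⟩ : ∃ s0, s0 ∉ AA K z := by
    by_contra hcon
    push Not at hcon
    have : #Q2 ≤ #(AA K z) := mk_le_of_injective (f := fun x => (⟨x, hcon x⟩ : AA K z))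
      fun x y hxy => congrArg Subtype.val hxy
    rw [mk_Q2] at this
    exact absurd h1 (not_lt.2 this)
  obtain ⟨δ, q, hδ, hsum⟩ := perturb (M h) (hb h) hh (s0 - ∑' n, M h n * z (n, m))
  let t : ℕ × ℕ → K := fun p =>
    if p.2 = m then ⟨(δ p.1 : Q2) / M h p.1, K.div_mem (SubfieldClass.ratCast_mem K _) (hM _ _)⟩
    else 0
  have hψ := indep_affine hz (fun _ => 1) t (fun _ => one_ne_zero)
  refine ⟨_, hψ, fun p => ?_, fun _ => Or.inr ⟨h, ?_⟩⟩
  · refine le_trans (IsUltrametricDist.norm_add_le_max _ _) (max_le (by simpa using hzn p) ?_)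
    by_cases hp : p.2 = m
    · simpa [t, hp] using hδ p.1
    · simp [t, hp]
  · have hle : AA K (fun i => ((1 : K) : Q2) * z i + (t i : Q2)) ≤ AA K z := by
      refine Algebra.adjoin_le ?_
      rintro _ ⟨p, rfl⟩
      exact add_mem (mul_mem (mem_K _ (1 : K).2) (Algebra.subset_adjoin ⟨p, rfl⟩)) (mem_K _ (t p).2)
    intro hcon
    apply hs0
    have hs : Summable fun n => M h n * z (n, m) := by
      refine Summable.of_norm_bounded summable_geometric_two fun n => ?_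
      rw [norm_mul]
      exact le_trans (mul_le_of_le_one_left (norm_nonneg _) (hb h n)) (hzn (n, m))
    have h2 := (hs.hasSum.add hsum).tsum_eq
    have h3 : (fun n => M h n * (((1 : K) : Q2) * z (n, m) + (t (n, m) : Q2)))
        = fun n => M h n * z (n, m) + M h n * ((δ n : Q2) / M h n) := by
      funext n
      simp [t, mul_add]
    have h4 := hle hcon
    rw [h3, h2] at h4
    have h5 := add_mem h4 (mem_K (AA K z) (SubfieldClass.ratCast_mem K q))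
    have h6 : ∑' (b : ℕ), M h b * z (b, m) + (s0 - ∑' (b : ℕ), M h b * z (b, m) - (q : Q2)) + q
        = s0 := by ring
    rwa [h6] at h5

lemma exists_step (t : Task) (S : Set Dat) (hS : #S < 𝔠) : ∃ d, StepSpec t S d := by
  classical
  obtain ⟨K, hK, h1, h2⟩ := exists_field t.2.2 S hS
  obtain ⟨a, b, n0, hv, hab⟩ : ∃ a b n0, Valid S a b n0 ∧
      ((∃ n, Valid S t.1 t.2.1 n) → a = t.1 ∧ b = t.2.1) := by
    by_cases h : ∃ n, Valid S t.1 t.2.1 n
    · obtain ⟨n, hn⟩ := h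
      exact ⟨t.1, t.2.1, n, hn, fun _ => ⟨rfl, rfl⟩⟩
    · exact ⟨e 0, e 0, 0, ⟨e_mem_Vq _ _ 0, e_mem_Vq _ _ 0, by simp [e_self], norm_e_le 0,
        norm_e_le 0, tendsto_e 0⟩, fun hh => absurd hh h⟩
  obtain ⟨m, hm, hm2⟩ : ∃ m, m ≠ n0 ∧ m < 2 := by
    by_cases h : n0 = 0
    · exact ⟨1, by omega, by omega⟩
    · exact ⟨0, by omega, by omega⟩
  obtain ⟨ψ, hψ, hn, hk⟩ := exists_psi hK t.2.2 h2 m
  exact ⟨(phi ψ a b n0, fun h => ∑' n, t.2.2 h n * ψ (n, m)), K, ψ, a, b, n0, m, hψ, hv, rfl, hn,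
    h1, h2, hm, hm2, rfl, hk, hab⟩

/-- The index set of the recursion. -/
abbrev Idx : Type := (𝔠 : Cardinal.{0}).ord.ToType

lemma exists_tasks : ∃ τ : Idx → Task, ∀ t η, ∃ ξ, η < ξ ∧ τ ξ = t := by
  have h1 : #Idx = #(Task × Idx) := by
    simp [mk_Q2]
  obtain ⟨f⟩ := Cardinal.eq.1 h1
  refine ⟨fun ξ => (f ξ).1, fun t η => ?_⟩
  by_contra hcon
  push Not at hcon
  have h2 : ∀ ζ, f.symm (t, ζ) ∈ Set.Iic η := fun ζ => by
    by_contra hh
    exact hcon _ (not_le.1 hh) (by simp)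
  have h3 : #Idx ≤ #(Set.Iic η) := mk_le_of_injective (f := fun ζ => ⟨f.symm (t, ζ), h2 ζ⟩)
    fun x y hxy => by simpa using hxy
  rw [mk_ord_toType, ← Set.Iio_insert] at h3
  have h4 := lt_of_le_of_lt (le_trans h3 mk_insert_le)
    (add_lt_of_lt aleph0_le_continuum (mk_Iio_toType_ord_lt η)
      (lt_of_lt_of_le one_lt_aleph0 aleph0_le_continuum))
  exact lt_irrefl _ h4

lemma exists_system : ∃ (τ : Idx → Task) (Φ : Idx → Dat), (∀ t η, ∃ ξ, η < ξ ∧ τ ξ = t) ∧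
    ∀ ξ, StepSpec (τ ξ) (Φ '' Set.Iio ξ) (Φ ξ) := by
  obtain ⟨τ, hτ⟩ := exists_tasks
  obtain ⟨Φ, hΦ⟩ := exists_rec (fun ξ S d => StepSpec (τ ξ) S d) fun ξ S hS =>
    exists_step (τ ξ) S (lt_of_le_of_lt hS (mk_Iio_toType_ord_lt ξ))
  exact ⟨τ, Φ, hτ, hΦ⟩

end Pool.Agent.H787Z.FT
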