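import Mathlib

set_option autoImplicit false

/-!
Words in a family of operators and the spans they generate.
-/

namespace Pool.Agent.H787Z.FT

variable {R : Type} [Field R] {M : Type} [AddCommGroup M] [Module R M] {ι : Type}

/-- The operator attached to a word. -/
def word (ρ : ι → Module.End R M) (w : List ι) : Module.End R M := (w.map ρ).prod

lemma word_nil (ρ : ι → Module.End R M) : word ρ [] = 1 := rfl

lemma word_cons (ρ : ι → Module.End R M) (η : ι) (w : List ι) :
    word ρ (η :: w) = ρ η * word ρ w := by simp [word]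

lemma word_append (ρ : ι → Module.End R M) (w w' : List ι) :
    word ρ (w ++ w') = word ρ w * word ρ w' := by simp [word]

/-- Span of the words with property `P` applied to the set `X`. -/
def Sp (ρ : ι → Module.End R M) (X : Set M) (P : List ι → Prop) : Submodule R M :=
  Submodule.span R {m | ∃ w, P w ∧ ∃ x ∈ X, m = word ρ w x}

/-- All letters lie in `S`. -/
def Ov (S : Set ι) (w : List ι) : Prop := ∀ η ∈ w, η ∈ S

lemma Sp_mono (ρ : ι → Module.End R M) (X : Set M) {P Q : List ι → Prop} (h : ∀ w, P w → Q w) :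
    Sp ρ X P ≤ Sp ρ X Q :=
  Submodule.span_mono fun _ ⟨w, hw, hx⟩ => ⟨w, h w hw, hx⟩

lemma Sp_mono_ov (ρ : ι → Module.End R M) (X : Set M) {S T : Set ι} (h : S ⊆ T) :
    Sp ρ X (Ov S) ≤ Sp ρ X (Ov T) :=
  Sp_mono ρ X fun _ hw η hη => h (hw η hη)

lemma mem_Sp (ρ : ι → Module.End R M) {X : Set M} {P : List ι → Prop} {w : List ι} (hw : P w)
    {x : M} (hx : x ∈ X) : word ρ w x ∈ Sp ρ X P :=
  Submodule.subset_span ⟨w, hw, x, hx, rfl⟩

lemma word_mem_Sp (ρ : ι → Module.End R M) {X : Set M} {S : Set ι} {w : List ι} (hw : Ov S w)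
    {m : M} (hm : m ∈ Sp ρ X (Ov S)) : word ρ w m ∈ Sp ρ X (Ov S) := by
  induction hm using Submodule.span_induction with
  | mem m hm =>
    obtain ⟨w', hw', x, hx, rfl⟩ := hm
    rw [← Module.End.mul_apply, ← word_append]
    refine mem_Sp ρ (fun η hη => ?_) hx
    rcases List.mem_append.1 hη with h | h
    · exact hw η h
    · exact hw' η h
  | zero => simp
  | add x y _ _ hx hy => rw [map_add]; exact add_mem hx hy
  | smul c x _ hx => rw [map_smul]; exact Submodule.smul_mem _ c hx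

lemma rho_mem_Sp (ρ : ι → Module.End R M) {X : Set M} {S : Set ι} {η : ι} (hη : η ∈ S)
    {m : M} (hm : m ∈ Sp ρ X (Ov S)) : ρ η m ∈ Sp ρ X (Ov S) := by
  have := word_mem_Sp ρ (w := [η]) (fun ζ hζ => by
    rw [List.mem_singleton.1 hζ]; exact hη) hm
  simpa [word] using this

variable [LinearOrder ι]

lemma ov_cases {S : Set ι} {w : List ι} (hw : Ov S w) : w = [] ∨ ∃ η ∈ S, Ov (Set.Iic η) w := by
  induction w with
  | nil => exact Or.inl rfl
  | cons ζ w ih =>
    right
    have hζ : ζ ∈ S := hw ζ List.mem_cons_self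
    rcases ih (fun η hη => hw η (List.mem_cons_of_mem _ hη)) with rfl | ⟨η, hη, h⟩
    · exact ⟨ζ, hζ, fun η hη => by rw [List.mem_singleton.1 hη]; exact le_refl ζ⟩
    · rcases le_total ζ η with hle | hle
      · refine ⟨η, hη, fun x hx => ?_⟩
        rcases List.mem_cons.1 hx with rfl | hx
        · exact hle
        · exact h x hx
      · refine ⟨ζ, hζ, fun x hx => ?_⟩
        rcases List.mem_cons.1 hx with rfl | hx
        · exact le_refl x
        · exact le_trans (h x hx) hle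

lemma Sp_cases (ρ : ι → Module.End R M) (X : Set M) {S : Set ι} {m : M} (hm : m ∈ Sp ρ X (Ov S)) :
    m ∈ Sp ρ X (Ov ∅) ∨ ∃ η ∈ S, m ∈ Sp ρ X (Ov (Set.Iic η)) := by
  induction hm using Submodule.span_induction with
  | mem m hm =>
    obtain ⟨w, hw, x, hx, rfl⟩ := hm
    rcases ov_cases hw with rfl | ⟨η, hη, h⟩
    · exact Or.inl (mem_Sp ρ (fun η hη => by simp at hη) hx)
    · exact Or.inr ⟨η, hη, mem_Sp ρ h hx⟩
  | zero => exact Or.inl (zero_mem _)
  | add x y _ _ hx hy =>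
    rcases hx with hx | ⟨η, hη, hx⟩ <;> rcases hy with hy | ⟨ζ, hζ, hy⟩
    · exact Or.inl (add_mem hx hy)
    · exact Or.inr ⟨ζ, hζ, add_mem (Sp_mono_ov ρ X (Set.empty_subset _) hx) hy⟩
    · exact Or.inr ⟨η, hη, add_mem hx (Sp_mono_ov ρ X (Set.empty_subset _) hy)⟩
    · rcases le_total η ζ with h | h
      · exact Or.inr ⟨ζ, hζ, add_mem (Sp_mono_ov ρ X (Set.Iic_subset_Iic.2 h) hx) hy⟩
      · exact Or.inr ⟨η, hη, add_mem hx (Sp_mono_ov ρ X (Set.Iic_subset_Iic.2 h) hy)⟩
  | smul c x _ hx =>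
    rcases hx with hx | ⟨η, hη, hx⟩
    · exact Or.inl (Submodule.smul_mem _ c hx)
    · exact Or.inr ⟨η, hη, Submodule.smul_mem _ c hx⟩

/-- Letters at most `ξ`, with at most `k` occurrences of `ξ`. -/
def Cnt (ξ : ι) (k : ℕ) (w : List ι) : Prop := Ov (Set.Iic ξ) w ∧ w.count ξ ≤ k

lemma cnt_zero {ξ : ι} {w : List ι} (h : Cnt ξ 0 w) : Ov (Set.Iio ξ) w := by
  intro η hη
  refine lt_of_le_of_ne (h.1 η hη) ?_
  rintro rfl
  have := List.count_pos_iff.2 hη
  have := h.2
  omega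

lemma cnt_split {ξ : ι} {k : ℕ} {w : List ι} (h : Cnt ξ (k + 1) w) :
    Ov (Set.Iio ξ) w ∨ ∃ w1 w2, w = w1 ++ ξ :: w2 ∧ Ov (Set.Iio ξ) w1 ∧ Cnt ξ k w2 := by
  induction w with
  | nil => exact Or.inl fun η hη => by simp at hη
  | cons ζ w ih =>
    have hw : Ov (Set.Iic ξ) w := fun η hη => h.1 η (List.mem_cons_of_mem _ hη)
    by_cases hζ : ζ = ξ
    · subst hζ
      right
      refine ⟨[], w, rfl, fun η hη => by simp at hη, hw, ?_⟩
      have := h.2
      rw [List.count_cons_self] at this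
      omega
    · have hlt : ζ < ξ := lt_of_le_of_ne (h.1 ζ List.mem_cons_self) hζ
      have hc : w.count ξ ≤ k + 1 := by
        have := h.2
        rwa [List.count_cons_of_ne hζ] at this
      rcases ih ⟨hw, hc⟩ with h1 | ⟨w1, w2, rfl, h1, h2⟩
      · left
        intro η hη
        rcases List.mem_cons.1 hη with rfl | hη
        · exact hlt
        · exact h1 η hη
      · right
        refine ⟨ζ :: w1, w2, rfl, fun η hη => ?_, h2⟩
        rcases List.mem_cons.1 hη with rfl | hη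
        · exact hlt
        · exact h1 η hη

lemma exists_cnt (ρ : ι → Module.End R M) (X : Set M) {ξ : ι} {m : M}
    (hm : m ∈ Sp ρ X (Ov (Set.Iic ξ))) : ∃ k, m ∈ Sp ρ X (Cnt ξ k) := by
  have mono : ∀ k k', k ≤ k' → Sp ρ X (Cnt ξ k) ≤ Sp ρ X (Cnt ξ k') := fun k k' h =>
    Sp_mono ρ X fun w hw => ⟨hw.1, le_trans hw.2 h⟩
  induction hm using Submodule.span_induction with
  | mem m hm =>
    obtain ⟨w, hw, x, hx, rfl⟩ := hm
    exact ⟨w.count ξ, mem_Sp ρ ⟨hw, le_rfl⟩ hx⟩
  | zero => exact ⟨0, zero_mem _⟩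
  | add x y _ _ hx hy =>
    obtain ⟨k, hk⟩ := hx
    obtain ⟨k', hk'⟩ := hy
    exact ⟨max k k', add_mem (mono _ _ (le_max_left _ _) hk) (mono _ _ (le_max_right _ _) hk')⟩
  | smul c x _ hx =>
    obtain ⟨k, hk⟩ := hx
    exact ⟨k, Submodule.smul_mem _ c hk⟩

lemma decomp (ρ : ι → Module.End R M) (X : Set M) {ξ : ι} {k : ℕ} {m : M}
    (hm : m ∈ Sp ρ X (Cnt ξ (k + 1))) :
    ∃ m0 ∈ Sp ρ X (Ov (Set.Iio ξ)), ∃ (s : Finset (List ι)) (t : List ι → M),
      (∀ w ∈ s, Ov (Set.Iio ξ) w) ∧ (∀ w, t w ∈ Sp ρ X (Cnt ξ k)) ∧ (∀ w ∉ s, t w = 0) ∧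
      m = m0 + ∑ w ∈ s, word ρ w (ρ ξ (t w)) := by
  classical
  induction hm using Submodule.span_induction with
  | mem m hm =>
    obtain ⟨w, hw, x, hx, rfl⟩ := hm
    rcases cnt_split hw with h1 | ⟨w1, w2, rfl, h1, h2⟩
    · exact ⟨_, mem_Sp ρ h1 hx, ∅, 0, by simp, fun _ => zero_mem _, by simp, by simp⟩
    · refine ⟨0, zero_mem _, {w1}, Pi.single w1 (word ρ w2 x), by simpa using h1, fun w => ?_,
        fun w hw => ?_, ?_⟩
      · by_cases hw : w = w1
        · subst hw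
          rw [Pi.single_eq_same]
          exact mem_Sp ρ h2 hx
        · rw [Pi.single_eq_of_ne hw]
          exact zero_mem _
      · exact Pi.single_eq_of_ne (by simpa using hw) _
      · simp [word_append, word_cons]
  | zero => exact ⟨0, zero_mem _, ∅, 0, by simp, fun _ => zero_mem _, by simp, by simp⟩
  | add x y _ _ hx hy =>
    obtain ⟨m0, hm0, s, t, h1, h2, h3, rfl⟩ := hx
    obtain ⟨m0', hm0', s', t', h1', h2', h3', rfl⟩ := hy
    refine ⟨m0 + m0', add_mem hm0 hm0', s ∪ s', t + t', fun w hw => ?_,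
      fun w => add_mem (h2 w) (h2' w), fun w hw => ?_, ?_⟩
    · rcases Finset.mem_union.1 hw with h | h
      · exact h1 w h
      · exact h1' w h
    · rw [Finset.mem_union, not_or] at hw
      simp [h3 w hw.1, h3' w hw.2]
    · simp only [Pi.add_apply, map_add, Finset.sum_add_distrib]
      rw [← Finset.sum_subset (Finset.subset_union_left (s₁ := s) (s₂ := s'))
          (f := fun w => word ρ w (ρ ξ (t w))) (fun w _ hw => by simp [h3 w hw]),
        ← Finset.sum_subset (Finset.subset_union_right (s₁ := s) (s₂ := s'))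
          (f := fun w => word ρ w (ρ ξ (t' w))) (fun w _ hw => by simp [h3' w hw])]
      abel
  | smul c x _ hx =>
    obtain ⟨m0, hm0, s, t, h1, h2, h3, rfl⟩ := hx
    refine ⟨c • m0, Submodule.smul_mem _ c hm0, s, c • t, h1,
      fun w => Submodule.smul_mem _ c (h2 w), fun w hw => by simp [h3 w hw], ?_⟩
    simp [Finset.smul_sum]

end Pool.Agent.H787Z.FT
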