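import Pool.Agent.H787Z.FT.Spec
import Pool.Agent.H787Z.FT.Words

set_option autoImplicit false

/-!
A well ordered system of generic operators: freeness.
-/

namespace Pool.Agent.H787Z.FT

open Filter TensorProduct

variable {F : Type} [Field F] [CharZero F] {ι : Type}

/-- The rational span of the words applied to basis vectors. -/
noncomputable def Vq (φ : ι → Module.End F (ℕ → F)) (P : List ι → Prop) : Submodule ℚ (ℕ → F) :=
  Sp (fun η => (φ η).restrictScalars ℚ) (Set.range e) P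

/-- The operators after base change. -/
noncomputable def rt (φ : ι → Module.End F (ℕ → F)) (η : ι) : Module.End F (F ⊗[ℚ] (ℕ → F)) :=
  ((φ η).restrictScalars ℚ).baseChange F

/-- Its base change. -/
noncomputable def Vt (φ : ι → Module.End F (ℕ → F)) (P : List ι → Prop) :
    Submodule F (F ⊗[ℚ] (ℕ → F)) :=
  Sp (rt φ) (Set.range fun n => (1 : F) ⊗ₜ[ℚ] (e n : ℕ → F)) P

/-- Left multiplication by a letter. -/
noncomputable def rw' (F : Type) [Field F] (η : ι) : Module.End F (List ι →₀ F) :=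
  Finsupp.lmapDomain F F (fun w => η :: w)

/-- Formal combinations of words. -/
noncomputable def Aw (F : Type) [Field F] (P : List ι → Prop) : Submodule F (List ι →₀ F) :=
  Sp (rw' F) {Finsupp.single [] 1} P

/-- Multiplication map. -/
noncomputable def mu (F : Type) [Field F] [CharZero F] : F ⊗[ℚ] (ℕ → F) →ₗ[F] (ℕ → F) :=
  LinearMap.liftBaseChange F (LinearMap.id : (ℕ → F) →ₗ[ℚ] (ℕ → F))

/-- Contraction with a rational functional. -/
noncomputable def th (θ : F →ₗ[ℚ] ℚ) : F ⊗[ℚ] (ℕ → F) →ₗ[ℚ] (ℕ → F) :=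
  (TensorProduct.lid ℚ (ℕ → F)).toLinearMap ∘ₗ θ.rTensor (ℕ → F)

/-- Evaluation of formal combinations of words. -/
noncomputable def ev (φ : ι → Module.End F (ℕ → F)) : (List ι →₀ F) →ₗ[F] Module.End F (ℕ → F) :=
  Finsupp.linearCombination F (word φ)

lemma mu_tmul (c : F) (v : ℕ → F) : mu F (c ⊗ₜ[ℚ] v) = c • v := by simp [mu]

lemma th_tmul (θ : F →ₗ[ℚ] ℚ) (c : F) (v : ℕ → F) : th θ (c ⊗ₜ[ℚ] v) = θ c • v := by simp [th]

lemma word_q (φ : ι → Module.End F (ℕ → F)) (w : List ι) (v : ℕ → F) :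
    word (fun η => (φ η).restrictScalars ℚ) w v = word φ w v := by
  induction w with
  | nil => rfl
  | cons η w ih => rw [word_cons, word_cons, Module.End.mul_apply, Module.End.mul_apply, ih]; rfl

lemma rt_tmul (φ : ι → Module.End F (ℕ → F)) (η : ι) (c : F) (v : ℕ → F) :
    rt φ η (c ⊗ₜ[ℚ] v) = c ⊗ₜ[ℚ] φ η v := by simp [rt]

lemma word_tmul (φ : ι → Module.End F (ℕ → F)) (w : List ι) (c : F) (v : ℕ → F) :
    word (rt φ) w (c ⊗ₜ[ℚ] v) = c ⊗ₜ[ℚ] word φ w v := by
  induction w with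
  | nil => rfl
  | cons η w ih =>
    rw [word_cons, word_cons, Module.End.mul_apply, Module.End.mul_apply, ih, rt_tmul]

lemma mu_rt (φ : ι → Module.End F (ℕ → F)) (η : ι) (τ : F ⊗[ℚ] (ℕ → F)) :
    mu F (rt φ η τ) = φ η (mu F τ) := by
  induction τ with
  | zero => simp
  | tmul c v => rw [rt_tmul, mu_tmul, mu_tmul, map_smul]
  | add x y hx hy => simp only [map_add, hx, hy]

lemma mu_word (φ : ι → Module.End F (ℕ → F)) (w : List ι) (τ : F ⊗[ℚ] (ℕ → F)) :
    mu F (word (rt φ) w τ) = word φ w (mu F τ) := by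
  induction w with
  | nil => rfl
  | cons η w ih =>
    rw [word_cons, word_cons, Module.End.mul_apply, Module.End.mul_apply, mu_rt, ih]

lemma mem_Vq (φ : ι → Module.End F (ℕ → F)) {P : List ι → Prop} {w : List ι} (hw : P w) (n : ℕ) :
    word φ w (e n) ∈ Vq φ P := by
  rw [← word_q]
  exact mem_Sp _ hw ⟨n, rfl⟩

lemma e_mem_Vq (φ : ι → Module.End F (ℕ → F)) (S : Set ι) (n : ℕ) : e n ∈ Vq φ (Ov S) :=
  mem_Vq φ (P := Ov S) (w := []) (fun η hη => by simp at hη) n

lemma phi_mem_Vq (φ : ι → Module.End F (ℕ → F)) {S : Set ι} {η : ι} (hη : η ∈ S) {v : ℕ → F}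
    (hv : v ∈ Vq φ (Ov S)) : φ η v ∈ Vq φ (Ov S) :=
  rho_mem_Sp (fun η => (φ η).restrictScalars ℚ) hη hv

lemma word_mem_Vq (φ : ι → Module.End F (ℕ → F)) {S : Set ι} {w : List ι} (hw : Ov S w)
    {v : ℕ → F} (hv : v ∈ Vq φ (Ov S)) : word φ w v ∈ Vq φ (Ov S) := by
  rw [← word_q]
  exact word_mem_Sp _ hw hv

lemma Vq_induction (φ : ι → Module.End F (ℕ → F)) {P : List ι → Prop} {W : Submodule ℚ (ℕ → F)}
    (h : ∀ w, P w → ∀ n, word φ w (e n) ∈ W) : Vq φ P ≤ W := by
  refine Submodule.span_le.2 ?_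
  rintro _ ⟨w, hw, _, ⟨n, rfl⟩, rfl⟩
  rw [word_q]
  exact h w hw n

lemma tmul_mem (φ : ι → Module.End F (ℕ → F)) {P : List ι → Prop} {v : ℕ → F} (hv : v ∈ Vq φ P)
    (c : F) : c ⊗ₜ[ℚ] v ∈ Vt φ P := by
  induction hv using Submodule.span_induction with
  | mem m hm =>
    obtain ⟨w, hw, _, ⟨n, rfl⟩, rfl⟩ := hm
    have h1 : c ⊗ₜ[ℚ] word φ w (e n) = c • word (rt φ) w ((1 : F) ⊗ₜ[ℚ] (e n : ℕ → F)) := by
      rw [word_tmul, TensorProduct.smul_tmul', smul_eq_mul, mul_one]
    rw [word_q, h1]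
    exact Submodule.smul_mem _ c (mem_Sp _ hw ⟨n, rfl⟩)
  | zero => simp
  | add x y _ _ hx hy => rw [TensorProduct.tmul_add]; exact add_mem hx hy
  | smul q x _ hx =>
    rw [TensorProduct.tmul_smul, ← algebraMap_smul F q]
    exact Submodule.smul_mem _ _ hx

lemma th_smul (θ : F →ₗ[ℚ] ℚ) (c : F) (τ : F ⊗[ℚ] (ℕ → F)) :
    th θ (c • τ) = th (θ.comp (LinearMap.mulLeft ℚ c)) τ := by
  induction τ with
  | zero => simp
  | tmul d v => rw [TensorProduct.smul_tmul', th_tmul, th_tmul]; rfl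
  | add x y hx hy => simp only [smul_add, map_add, hx, hy]

lemma th_mem (φ : ι → Module.End F (ℕ → F)) {P : List ι → Prop} {τ : F ⊗[ℚ] (ℕ → F)}
    (hτ : τ ∈ Vt φ P) (θ : F →ₗ[ℚ] ℚ) : th θ τ ∈ Vq φ P := by
  induction hτ using Submodule.span_induction generalizing θ with
  | mem m hm =>
    obtain ⟨w, hw, _, ⟨n, rfl⟩, rfl⟩ := hm
    rw [word_tmul, th_tmul]
    exact Submodule.smul_mem _ _ (mem_Vq φ hw n)
  | zero => simp
  | add x y _ _ hx hy => rw [map_add]; exact add_mem (hx θ) (hy θ)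
  | smul c x _ hx => rw [th_smul]; exact hx _

lemma mu_mem (φ : ι → Module.End F (ℕ → F)) {P : List ι → Prop} {W : Submodule F (ℕ → F)}
    (h : ∀ w, P w → ∀ n, word φ w (e n) ∈ W) {τ : F ⊗[ℚ] (ℕ → F)} (hτ : τ ∈ Vt φ P) :
    mu F τ ∈ W := by
  induction hτ using Submodule.span_induction with
  | mem m hm =>
    obtain ⟨w, hw, _, ⟨n, rfl⟩, rfl⟩ := hm
    rw [word_tmul, mu_tmul, one_smul]
    exact h w hw n
  | zero => simp
  | add x y _ _ hx hy => rw [map_add]; exact add_mem hx hy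
  | smul c x _ hx => rw [map_smul]; exact Submodule.smul_mem _ _ hx

lemma exists_theta_one : ∃ θ : F →ₗ[ℚ] ℚ, θ 1 = 1 :=
  Module.Projective.exists_dual_eq_one ℚ (one_ne_zero (α := F))

lemma of_one_tmul (φ : ι → Module.End F (ℕ → F)) {P : List ι → Prop} {v : ℕ → F}
    (hv : (1 : F) ⊗ₜ[ℚ] v ∈ Vt φ P) : v ∈ Vq φ P := by
  obtain ⟨θ, hθ⟩ := exists_theta_one (F := F)
  have := th_mem φ hv θ
  rwa [th_tmul, hθ, one_smul] at this

omit [CharZero F] in
lemma word_single (w w' : List ι) (c : F) :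
    word (rw' F) w (Finsupp.single w' c) = Finsupp.single (w ++ w') c := by
  induction w with
  | nil => rfl
  | cons η w ih =>
    rw [word_cons, Module.End.mul_apply, ih]
    simp [rw', Finsupp.mapDomain_single]

omit [CharZero F] in
lemma single_mem_Aw {P : List ι → Prop} {w : List ι} (hw : P w) (c : F) :
    Finsupp.single w c ∈ Aw F P := by
  have h1 : Finsupp.single w c = c • word (rw' F) w (Finsupp.single [] (1 : F)) := by
    rw [word_single]
    simp
  rw [h1]
  exact Submodule.smul_mem _ c (mem_Sp _ hw rfl)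

omit [CharZero F] in
lemma ev_single (φ : ι → Module.End F (ℕ → F)) (w : List ι) (c : F) :
    ev φ (Finsupp.single w c) = c • word φ w := by simp [ev]

omit [CharZero F] in
lemma ev_rw (φ : ι → Module.End F (ℕ → F)) (η : ι) (P : List ι →₀ F) :
    ev φ (rw' F η P) = φ η * ev φ P := by
  induction P using Finsupp.induction_linear with
  | zero => simp
  | add x y hx hy => simp only [map_add, hx, hy, mul_add]
  | single w c =>
    have : rw' F η (Finsupp.single w c) = Finsupp.single (η :: w) c := by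
      simp [rw', Finsupp.mapDomain_single]
    rw [this, ev_single, ev_single, word_cons, mul_smul_comm]

omit [CharZero F] in
lemma ev_word (φ : ι → Module.End F (ℕ → F)) (w : List ι) (P : List ι →₀ F) :
    ev φ (word (rw' F) w P) = word φ w * ev φ P := by
  induction w with
  | nil => rw [word_nil, word_nil, one_mul]; rfl
  | cons η w ih => rw [word_cons, word_cons, Module.End.mul_apply, ev_rw, ih, mul_assoc]

omit [CharZero F] in
lemma word_loc {φ : ι → Module.End F (ℕ → F)} (hl : ∀ η, Loc (φ η)) (w : List ι) :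
    Loc (word φ w) := by
  induction w with
  | nil => exact Loc.one
  | cons η w ih => rw [word_cons]; exact (hl η).mul ih

omit [CharZero F] in
lemma ev_loc {φ : ι → Module.End F (ℕ → F)} (hl : ∀ η, Loc (φ η)) (P : List ι →₀ F) :
    Loc (ev φ P) := by
  induction P using Finsupp.induction_linear with
  | zero => rw [map_zero]; exact Loc.zero
  | add x y hx hy => rw [map_add]; exact hx.add hy
  | single w c => rw [ev_single]; exact (word_loc hl w).smul c

omit [CharZero F] in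
lemma word_maps {φ : ι → Module.End F (ℕ → F)} (hl : ∀ η, Loc (φ η)) {S : Set ι} (B : Subring F)
    (ho : ∀ η ∈ S, Over (B : Set F) (φ η)) {w : List ι} (hw : Ov S w) {u : ℕ → F}
    (hu : ∀ n, u n ∈ B) (h : ℕ) : word φ w u h ∈ B := by
  induction w generalizing h with
  | nil => exact hu h
  | cons η w ih =>
    rw [word_cons, Module.End.mul_apply]
    exact (hl η).maps (ho η (hw η List.mem_cons_self))
      (fun n => ih (fun ζ hζ => hw ζ (List.mem_cons_of_mem _ hζ)) n) h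

/-- Independence of words modulo operators with finitely many columns. -/
def LI (φ : ι → Module.End F (ℕ → F)) (S : Set ι) : Prop :=
  ∀ P ∈ Aw F (Ov S), (∀ᶠ i in atTop, ev φ P (e i) = 0) → P = 0

/-- Linear disjointness. -/
def Free (φ : ι → Module.End F (ℕ → F)) (S : Set ι) : Prop :=
  ∀ τ ∈ Vt φ (Ov S), mu F τ = 0 → τ = 0

omit [CharZero F] in
lemma LI.fin {φ : ι → Module.End F (ℕ → F)} {S : Set ι} (h : LI φ S) (s : Finset (List ι))
    (hs : ∀ w ∈ s, Ov S w) (γ : List ι → F)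
    (hγ : ∀ᶠ i in atTop, ∑ w ∈ s, γ w • word φ w (e i) = 0) : ∀ w ∈ s, γ w = 0 := by
  classical
  have h1 := h (∑ w ∈ s, Finsupp.single w (γ w))
    (sum_mem fun w hw => single_mem_Aw (hs w hw) _) (by
      filter_upwards [hγ] with i hi
      simpa [map_sum, ev_single, LinearMap.sum_apply] using hi)
  intro w hw
  have h2 := DFunLike.congr_fun h1 w
  rw [Finset.sum_apply', Finset.sum_eq_single w] at h2
  · simpa using h2
  · intro b _ hb
    exact Finsupp.single_eq_of_ne' hb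
  · intro hh
    exact absurd hw hh

omit [CharZero F] in
lemma LI_empty (φ : ι → Module.End F (ℕ → F)) (P : List ι →₀ F) (hP : P ∈ Aw F (Ov (∅ : Set ι)))
    (h : ∀ᶠ i in atTop, ev φ P (e i) = 0) : P = 0 := by
  have h1 : Aw F (Ov (∅ : Set ι)) ≤ Submodule.span F {Finsupp.single [] (1 : F)} := by
    refine Submodule.span_mono ?_
    rintro _ ⟨w, hw, _, rfl, rfl⟩
    have : w = [] := List.eq_nil_iff_forall_not_mem.2 fun η hη => hw η hη
    subst this
    rfl
  obtain ⟨c, rfl⟩ := Submodule.mem_span_singleton.1 (h1 hP)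
  obtain ⟨i, hi⟩ := h.exists
  have h2 := congrFun hi i
  rw [map_smul, ev_single, word_nil] at h2
  simp only [one_smul, LinearMap.smul_apply, Module.End.one_apply, Pi.smul_apply, e_self,
    smul_eq_mul, mul_one, Pi.zero_apply] at h2
  rw [h2, zero_smul]

lemma free_empty (φ : ι → Module.End F (ℕ → F)) (τ : F ⊗[ℚ] (ℕ → F))
    (hτ : τ ∈ Vt φ (Ov (∅ : Set ι))) (h : mu F τ = 0) : τ = 0 := by
  have h1 : Vt φ (Ov (∅ : Set ι)) ≤
      Submodule.span F (Set.range fun n => (1 : F) ⊗ₜ[ℚ] (e n : ℕ → F)) := by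
    refine Submodule.span_mono ?_
    rintro _ ⟨w, hw, x, hx, rfl⟩
    have : w = [] := List.eq_nil_iff_forall_not_mem.2 fun η hη => hw η hη
    subst this
    exact hx
  obtain ⟨c, rfl⟩ := Finsupp.mem_span_range_iff_exists_finsupp.1 (h1 hτ)
  have h2 : c = 0 := by
    ext n
    have h3 := congrFun h n
    rw [Finsupp.sum, map_sum, Finset.sum_apply, Finset.sum_eq_single n] at h3
    · simpa [mu_tmul, e_self] using h3
    · intro m _ hm
      simp [mu_tmul, e_ne (Ne.symm hm)]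
    · intro hn
      simp [Finsupp.notMem_support_iff.1 hn]
  simp [h2]

variable [LinearOrder ι]

/-- The data of one step of the construction. -/
structure Stage (φ : ι → Module.End F (ℕ → F)) (ξ : ι) (K : Subfield F) (ψ : ℕ × ℕ → F)
    (a b : ℕ → F) (n0 : ℕ) : Prop where
  indep : AlgebraicIndependent K ψ
  ha : a ∈ Vq φ (Ov (Set.Iio ξ))
  hb : b ∈ Vq φ (Ov (Set.Iio ξ))
  eq : φ ξ = phi ψ a b n0
  an : a n0 ≠ 0
  loc : ∀ η, Loc (φ η)
  ovr : ∀ η < ξ, Over (K : Set F) (φ η)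

/-- Vectors with coordinates in a subalgebra, as a rational subspace. -/
def coords {K : Subfield F} (B : Subalgebra K F) : Submodule ℚ (ℕ → F) where
  carrier := {u | ∀ n, u n ∈ B}
  add_mem' := fun ha hb n => add_mem (ha n) (hb n)
  zero_mem' := fun _ => zero_mem B
  smul_mem' := fun q u hu n => by
    rw [Pi.smul_apply, Rat.smul_def]
    exact mul_mem (mem_K B (SubfieldClass.ratCast_mem K q)) (hu n)

namespace Stage

variable {φ : ι → Module.End F (ℕ → F)} {ξ : ι} {K : Subfield F} {ψ : ℕ × ℕ → F}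
  {a b : ℕ → F} {n0 : ℕ}

lemma wordK (h : Stage φ ξ K ψ a b n0) {w : List ι} (hw : Ov (Set.Iio ξ) w) :
    Over (K : Set F) (word φ w) := fun i n =>
  word_maps h.loc K.toSubring h.ovr hw (e_mem K.toSubring n) i

lemma VqK (h : Stage φ ξ K ψ a b n0) {v : ℕ → F} (hv : v ∈ Vq φ (Ov (Set.Iio ξ))) (n : ℕ) :
    v n ∈ K := by
  have h1 : Vq φ (Ov (Set.Iio ξ)) ≤ coords (⊥ : Subalgebra K F) :=
    Vq_induction φ fun w hw n i => mem_K _ (h.wordK hw i n)
  obtain ⟨k, hk⟩ := Algebra.mem_bot.1 (h1 hv n)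
  rw [← hk]
  exact k.2

lemma overA (h : Stage φ ξ K ψ a b n0) (η : ι) (hη : η ∈ Set.Iic ξ) :
    Over ((AA K ψ).toSubring : Set F) (φ η) := by
  rcases lt_or_eq_of_le (show η ≤ ξ from hη) with h1 | rfl
  · exact fun i n => mem_K (AA K ψ) (h.ovr η h1 i n)
  · rw [h.eq]
    exact phi_over (h.VqK h.ha) (h.VqK h.hb) n0

lemma wordA (h : Stage φ ξ K ψ a b n0) {w : List ι} (hw : Ov (Set.Iic ξ) w) (n i : ℕ) :
    word φ w (e n) i ∈ AA K ψ :=
  word_maps h.loc (AA K ψ).toSubring h.overA hw (e_mem _ n) i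

lemma VqA (h : Stage φ ξ K ψ a b n0) {v : ℕ → F} (hv : v ∈ Vq φ (Ov (Set.Iic ξ))) (n : ℕ) :
    v n ∈ AA K ψ :=
  Vq_induction (W := coords (AA K ψ)) φ (fun _ hw n i => h.wordA hw n i) hv n

lemma muK (h : Stage φ ξ K ψ a b n0) {τ : F ⊗[ℚ] (ℕ → F)} (hτ : τ ∈ Vt φ (Ov (Set.Iio ξ))) :
    mu F τ ∈ Submodule.span F {u : ℕ → F | ∀ n, u n ∈ K} :=
  mu_mem φ (fun w hw n => Submodule.subset_span (s := {u : ℕ → F | ∀ n, u n ∈ K})
    (show ∀ i, word φ w (e n) i ∈ K from fun i => h.wordK hw i n)) hτ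

lemma muA (h : Stage φ ξ K ψ a b n0) {k : ℕ} {τ : F ⊗[ℚ] (ℕ → F)} (hτ : τ ∈ Vt φ (Cnt ξ k)) :
    mu F τ ∈ Submodule.span F {u : ℕ → F | ∀ n, u n ∈ AA K ψ} :=
  mu_mem φ (fun w (hw : Cnt ξ k w) n =>
    Submodule.subset_span (s := {u : ℕ → F | ∀ n, u n ∈ AA K ψ})
    (show ∀ i, word φ w (e n) i ∈ AA K ψ from fun i => h.wordA hw.1 n i)) hτ

lemma evK (h : Stage φ ξ K ψ a b n0) {P : List ι →₀ F} (hP : P ∈ Aw F (Ov (Set.Iio ξ))) (n : ℕ) :
    ev φ P (e n) ∈ Submodule.span F {u : ℕ → F | ∀ n, u n ∈ K} := by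
  induction hP using Submodule.span_induction with
  | mem m hm =>
    obtain ⟨w, hw, _, rfl, rfl⟩ := hm
    rw [word_single, ev_single, one_smul, List.append_nil]
    exact Submodule.subset_span fun i => h.wordK hw i n
  | zero => simp
  | add x y _ _ hx hy => rw [map_add]; exact add_mem hx hy
  | smul c x _ hx => rw [map_smul]; exact Submodule.smul_mem _ _ hx

lemma evA (h : Stage φ ξ K ψ a b n0) {k : ℕ} {P : List ι →₀ F} (hP : P ∈ Aw F (Cnt ξ k)) (n : ℕ) :
    ev φ P (e n) ∈ Submodule.span F {u : ℕ → F | ∀ n, u n ∈ AA K ψ} := by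
  induction hP using Submodule.span_induction with
  | mem m hm =>
    obtain ⟨w, hw, _, rfl, rfl⟩ := hm
    rw [word_single, ev_single, one_smul, List.append_nil]
    exact Submodule.subset_span fun i => h.wordA hw.1 n i
  | zero => simp
  | add x y _ _ hx hy => rw [map_add]; exact add_mem hx hy
  | smul c x _ hx => rw [map_smul]; exact Submodule.smul_mem _ _ hx

lemma li_step (h : Stage φ ξ K ψ a b n0) (hLI : LI φ (Set.Iio ξ)) : LI φ (Set.Iic ξ) := by
  intro P hP
  obtain ⟨k, hk⟩ := exists_cnt _ _ hP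
  clear hP
  induction k generalizing P with
  | zero => exact hLI P (Sp_mono _ _ (fun w hw => cnt_zero hw) hk)
  | succ k ih =>
    intro hev
    obtain ⟨P0, hP0, s, t, h1, h2, h3, rfl⟩ := decomp _ _ hk
    have key : ∀ᶠ n in atTop, ∀ w ∈ s, piMap a n0 (ev φ (t w) (e n)) = 0 := by
      filter_upwards [hev] with n hn
      refine extract h.indep (h.VqK h.ha) (h.VqK h.hb) n0 s (word φ)
        (fun w _ => word_loc h.loc w) (fun w hw => h.wordK (h1 w hw)) (hLI.fin s h1)
        (fun w => ev φ (t w) (e n)) (fun w _ => h.evA (h2 w) n) _ (h.evK hP0 n) ?_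
      rw [← hn, map_add, map_sum, LinearMap.add_apply, LinearMap.sum_apply]
      congr 1
      refine Finset.sum_congr rfl fun w _ => ?_
      rw [ev_word, ev_rw, h.eq]
      rfl
    have ht : ∀ w ∈ s, t w = 0 := by
      intro w hw
      refine ih (t w) (h2 w) ?_
      filter_upwards [key, (ev_loc h.loc (t w)).eventually (n0 + 1)] with n hn hn'
      rw [eq_of_piMap (hn w hw), hn' n0 (Nat.lt_succ_self _), zero_mul, zero_smul]
    have hs : ∑ w ∈ s, word (rw' F) w (rw' F ξ (t w)) = 0 :=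
      Finset.sum_eq_zero fun w hw => by simp [ht w hw]
    rw [hs, add_zero] at hev ⊢
    exact hLI P0 hP0 hev

lemma descend (h : Stage φ ξ K ψ a b n0) (hLI : LI φ (Set.Iio ξ)) (hfree : Free φ (Set.Iio ξ))
    {τ : F ⊗[ℚ] (ℕ → F)} (hτ : τ ∈ Vt φ (Ov (Set.Iic ξ)))
    (hK : mu F τ ∈ Submodule.span F {u : ℕ → F | ∀ n, u n ∈ K}) : τ ∈ Vt φ (Ov (Set.Iio ξ)) := by
  obtain ⟨k, hk⟩ := exists_cnt _ _ hτ
  clear hτ
  induction k generalizing τ with
  | zero => exact Sp_mono _ _ (fun w hw => cnt_zero hw) hk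
  | succ k ih =>
    obtain ⟨τ0, hτ0, s, t, h1, h2, h3, rfl⟩ := decomp _ _ hk
    have key := extract h.indep (h.VqK h.ha) (h.VqK h.hb) n0 s (word φ)
      (fun w _ => word_loc h.loc w) (fun w hw => h.wordK (h1 w hw)) (hLI.fin s h1)
      (fun w => mu F (t w)) (fun w _ => h.muA (h2 w)) _ (sub_mem (h.muK hτ0) hK) (by
        rw [map_add, map_sum]
        simp only [mu_word, mu_rt, h.eq]
        abel)
    refine add_mem hτ0 (sum_mem fun w hw => ?_)
    have e1 := eq_of_piMap (key w hw)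
    set d := mu F (t w) n0 * (a n0)⁻¹ with hd
    have m1 : t w ∈ Vt φ (Ov (Set.Iio ξ)) := by
      refine ih ?_ (h2 w)
      rw [e1]
      exact Submodule.smul_mem _ _ (Submodule.subset_span (h.VqK h.ha))
    have e2 : t w = d ⊗ₜ[ℚ] a := by
      rw [← sub_eq_zero]
      refine hfree _ (sub_mem m1 (tmul_mem φ h.ha d)) ?_
      rw [map_sub, mu_tmul, ← e1, sub_self]
    rw [e2, rt_tmul, h.eq, phi_a ψ b h.an]
    exact word_mem_Sp _ (h1 w hw) (tmul_mem φ h.hb d)

lemma free_step (h : Stage φ ξ K ψ a b n0) (hLI : LI φ (Set.Iio ξ)) (hfree : Free φ (Set.Iio ξ)) :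
    Free φ (Set.Iic ξ) := fun τ hτ h0 =>
  hfree τ (h.descend hLI hfree hτ (by rw [h0]; exact zero_mem _)) h0

lemma persist (h : Stage φ ξ K ψ a b n0) (hLI : LI φ (Set.Iio ξ)) (hfree : Free φ (Set.Iio ξ))
    {y : ℕ → F} (hy : y ∈ Vq φ (Ov (Set.Iic ξ))) (hK : ∀ n, y n ∈ K) :
    y ∈ Vq φ (Ov (Set.Iio ξ)) := by
  refine of_one_tmul φ (h.descend hLI hfree (tmul_mem φ hy 1) ?_)
  rw [mu_tmul, one_smul]
  exact Submodule.subset_span hK

/-- A row-finite operator over `K` that maps the new generic column into the new space is a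
combination of words, up to finitely many columns. -/
lemma kill (h : Stage φ ξ K ψ a b n0) (hLI : LI φ (Set.Iio ξ)) {T : Module.End F (ℕ → F)}
    (hT : Loc T) (hTK : Over (K : Set F) T) {m : ℕ} (hm : m ≠ n0)
    (hy : T (φ ξ (e m)) ∈ Vq φ (Ov (Set.Iic ξ))) :
    ∃ P : List ι →₀ F, ∀ᶠ i in atTop, T (e i) = ev φ P (e i) := by
  classical
  by_contra hcon
  obtain ⟨k, hk⟩ := exists_cnt _ _ (tmul_mem φ hy 1)
  obtain ⟨τ0, hτ0, s, t, h1, h2, h3, h4⟩ := decomp _ _
    (Sp_mono _ _ (fun w (hw : Cnt ξ k w) => (⟨hw.1, Nat.le_succ_of_le hw.2⟩ : Cnt ξ (k + 1) w)) hk)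
  have h5 := congrArg (mu F) h4
  rw [mu_tmul, one_smul, map_add, map_sum] at h5
  simp only [mu_word, mu_rt] at h5
  have key := extract h.indep (h.VqK h.ha) (h.VqK h.hb) n0 (Finset.insertNone s)
    (fun o => o.elim T (word φ)) (by
      rintro (_ | w) _
      · exact hT
      · exact word_loc h.loc w) (by
      rintro (_ | w) hw
      · exact hTK
      · exact h.wordK (h1 w (by simpa using hw))) (by
      intro γ hγ
      simp only [Finset.sum_insertNone, Option.elim_none, Option.elim_some] at hγ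
      by_cases h0 : γ none = 0
      · have := hLI.fin s h1 (fun w => γ (some w)) (by simpa [h0] using hγ)
        rintro (_ | w) hw
        · exact h0
        · exact this w (by simpa using hw)
      · exfalso
        apply hcon
        refine ⟨∑ w ∈ s, Finsupp.single w (-(γ none)⁻¹ * γ (some w)), ?_⟩
        filter_upwards [hγ] with i hi
        have h6 : T (e i) = (-(γ none)⁻¹) • ∑ w ∈ s, γ (some w) • word φ w (e i) := by
          rw [← neg_eq_of_add_eq_zero_right hi, smul_neg, smul_smul]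
          simp [h0]
        rw [h6, map_sum, LinearMap.sum_apply, Finset.smul_sum]
        refine Finset.sum_congr rfl fun w _ => ?_
        rw [ev_single, smul_smul, LinearMap.smul_apply])
    (fun o => o.elim (-e m) (fun w => mu F (t w))) (by
      rintro (_ | w) _
      · exact neg_mem (Submodule.subset_span fun n => e_mem (AA K ψ).toSubring m n)
      · exact h.muA (h2 w)) (mu F τ0) (h.muK hτ0) (by
      simp only [Finset.sum_insertNone, Option.elim_none, Option.elim_some, map_neg, ← h.eq]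
      rw [h5]
      abel)
  have h7 := congrFun (key none Finset.none_mem_insertNone) m
  simp only [Option.elim_none, map_neg, piMap_e a hm, Pi.neg_apply, e_self, Pi.zero_apply] at h7
  exact one_ne_zero (neg_eq_zero.1 h7)

end Stage

variable [WellFoundedLT ι] {φ : ι → Module.End F (ℕ → F)}

omit [WellFoundedLT ι] [CharZero F] in
lemma LI_of {S : Set ι} (h : ∀ η ∈ S, LI φ (Set.Iic η)) : LI φ S := by
  intro P hP
  rcases Sp_cases _ _ hP with h1 | ⟨η, hη, h1⟩
  · exact LI_empty φ P h1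
  · exact h η hη P h1

omit [WellFoundedLT ι] in
lemma free_of {S : Set ι} (h : ∀ η ∈ S, Free φ (Set.Iic η)) : Free φ S := by
  intro τ hτ
  rcases Sp_cases _ _ hτ with h1 | ⟨η, hη, h1⟩
  · exact free_empty φ τ h1
  · exact h η hη τ h1

lemma LI_all (H : ∀ ξ, ∃ K ψ a b n0, Stage φ ξ K ψ a b n0) (S : Set ι) : LI φ S := by
  have main : ∀ ξ, LI φ (Set.Iic ξ) := by
    intro ξ
    induction ξ using WellFoundedLT.induction with
    | ind ξ ih =>
      obtain ⟨K, ψ, a, b, n0, h⟩ := H ξ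
      exact h.li_step (LI_of fun η hη => ih η hη)
  exact LI_of fun ξ _ => main ξ

lemma free_all (H : ∀ ξ, ∃ K ψ a b n0, Stage φ ξ K ψ a b n0) (S : Set ι) : Free φ S := by
  have main : ∀ ξ, Free φ (Set.Iic ξ) := by
    intro ξ
    induction ξ using WellFoundedLT.induction with
    | ind ξ ih =>
      obtain ⟨K, ψ, a, b, n0, h⟩ := H ξ
      exact h.free_step (LI_all H _) (free_of fun η hη => ih η hη)
  exact free_of fun ξ _ => main ξ

lemma persist_all {ξ : ι} {y : ℕ → F}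
    (H : ∀ η, ∃ K ψ a b n0, Stage φ η K ψ a b n0 ∧ (ξ < η → ∀ n, y n ∈ K))
    (hy : y ∈ Vq φ (Ov Set.univ)) : y ∈ Vq φ (Ov (Set.Iic ξ)) := by
  have H' : ∀ η, ∃ K ψ a b n0, Stage φ η K ψ a b n0 := fun η => by
    obtain ⟨K, ψ, a, b, n0, h, _⟩ := H η
    exact ⟨K, ψ, a, b, n0, h⟩
  have main : ∀ η, y ∈ Vq φ (Ov (Set.Iic η)) → y ∈ Vq φ (Ov (Set.Iic ξ)) := by
    intro η
    induction η using WellFoundedLT.induction with
    | ind η ih =>
      intro hη
      rcases le_or_gt η ξ with hle | hlt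
      · exact Sp_mono_ov _ _ (Set.Iic_subset_Iic.2 hle) hη
      · obtain ⟨K, ψ, a, b, n0, h, hK⟩ := H η
        have h1 := h.persist (LI_all H' _) (free_all H' _) hη (hK hlt)
        rcases Sp_cases _ _ h1 with h2 | ⟨ζ, hζ, h2⟩
        · exact Sp_mono_ov _ _ (Set.empty_subset _) h2
        · exact ih ζ hζ h2
  rcases Sp_cases _ _ hy with h2 | ⟨ζ, _, h2⟩
  · exact Sp_mono_ov _ _ (Set.empty_subset _) h2
  · exact main ζ h2

end Pool.Agent.H787Z.FT
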